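import Pool.Agent.H54.ZK.Fam

set_option autoImplicit false

/-! The generic condition and the two hulls. -/

namespace Pool.Agent.H54.ZK

open Set Filter Cardinal Function
open Pool.Agent.H42.ZF Pool.Agent.H40 Pool.Agent.H40.Js
open Pool.Agent.H40.Bspt (Fm IsZF UD IsNat IsFin)

section defs
open Pool.Agent.H40.Bspt
variable {M : Type} (E : M → M → Prop)

/-- `x ∈ f(n)` -/
def TH (x f n : M) : Prop := ∃ Y, (∀ y, Bspt.App E f n y ↔ y = Y) ∧ E x Y

/-- `g` is a multiple choice function for the sequence `f` -/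
def MCf (g f : M) : Prop := ∀ n, Bspt.IsNat E n → ∃ F, (∀ y, Bspt.App E g n y ↔ y = F) ∧
  (∃ x, E x F) ∧ Bspt.IsFin E F ∧ ∀ x, E x F → TH E x f n

end defs

theorem ud_TH (a b c : ℕ) : UD fun _ E v => TH E (v a) (v b) (v c) := by
  unfold TH
  repeat' first | apply UD.app | apply UD.mem | apply UD.eq | apply UD.and | apply UD.iff | apply UD.ex | apply UD.all

theorem ud_MCf : UD fun _ E v => MCf E (v 0) (v 1) := by
  unfold MCf
  repeat' first | apply ud_TH | apply UD.nat | apply UD.fin | apply UD.app | apply UD.mem | apply UD.eq | apply UD.and | apply UD.iff | apply UD.ex | apply UD.all | apply UD.imp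

/-- base of the hull -/
abbrev Bs : Type := ℕ ⊕ (Unit ⊕ (Unit ⊕ (Option (ℕ × ZMod 2) ⊕ (ℕ × ZMod 2))))

noncomputable def nu : Bs → Nm PP :=
  Sum.elim natN (Sum.elim (fun _ => omegaN) (Sum.elim (fun _ => XN)
    (Sum.elim pN fun x => YN x.1 [] x.2)))

theorem om_hs : HS Gp (omegaN : Nm PP) :=
  hs_fam (Eventually.of_forall fun g U => fam_act (A := natN) (B := natN) (Q := fun _ _ => True)
    (Q' := fun _ _ => True) (nat_act g) (fun _ _ => Iff.rfl) U) hs_nat

theorem nu_hs : ∀ b, HS Gp (nu b) := by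
  rintro (_ | _ | _ | _ | _)
  exacts [hs_nat _, om_hs, XN_hs, pN_hs _, YN_hs _ _ _]

theorem PP_closed : SClosed PP := Fn.sclosed isRegular_aleph_one aleph0_lt_aleph_one

theorem PP_dist {ι : Type} [Countable ι] : Dist PP ι :=
  fn_dist isRegular_aleph_one (lt_of_le_of_lt mk_le_aleph0 aleph0_lt_aleph_one)

theorem core (θ : Fm) : ∃ (q : PP) (x' : T Bs → Nm PP) (xo : T Bs → ℕ → Nm PP),
    (∀ t, HS Gp (x' t)) ∧ (∀ t k, HS Gp (xo t k)) ∧
    (∀ t, Frc q fun U => mk U (ev Gp nu t 0) = mk U (x' t)) ∧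
    ∀ t k, Frc q fun U => SL Gp U (.ex θ) (fun i => mk U (cs (x' t) (fun _ => natN k) i)) →
      SL Gp U θ (fun i => mk U (cs (xo t k) (cs (x' t) fun _ => natN k) i)) := by
  haveI : Nonempty Bs := ⟨.inl 0⟩
  haveI : Nonempty (T Bs) := ⟨.base (.inl 0)⟩
  obtain ⟨e, he⟩ := exists_surjective_nat (T Bs)
  obtain ⟨q, -, g, hg⟩ := omega_cases PP_closed (T := {x : Nm PP // HS Gp x})
    (p := ⟨fun _ => none, by simp⟩)
    (R := fun n a U => mk U (ev Gp nu (e n) 0) = mk U a.1) (fun n q _ => by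
      obtain ⟨r, hr, y, h1, h2⟩ := L_elim (Γ := Gp) (x := ev Gp nu (e n) 0) (p := q)
        fun U _ => ev_L nu_hs (e n) 0
      exact ⟨r, hr, ⟨y, h1⟩, h2⟩)
  choose e' he' using he
  let x' : T Bs → Nm PP := fun t => (g (e' t)).1
  have hx' : ∀ t, HS Gp (x' t) := fun t => (g (e' t)).2
  have hq : ∀ t, Frc q fun U => mk U (ev Gp nu t 0) = mk U (x' t) := fun t => by
    have := hg (e' t)
    rwa [he'] at this
  obtain ⟨d, hd⟩ := exists_surjective_nat (T Bs × ℕ)
  obtain ⟨r, hr, g', hg'⟩ := omega_cases PP_closed (T := {x : Nm PP // HS Gp x}) (p := q)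
    (R := fun n a U => SL Gp U (.ex θ) (fun i => mk U (cs (x' (d n).1) (fun _ => natN (d n).2) i)) →
      SL Gp U θ (fun i => mk U (cs a.1 (cs (x' (d n).1) fun _ => natN (d n).2) i)))
    (fun n r _ => by
      by_cases h : Frc r fun U => ¬ SL Gp U (.ex θ)
          (fun i => mk U (cs (x' (d n).1) (fun _ => natN (d n).2) i))
      · exact ⟨r, le_rfl, ⟨_, hs_nat 0⟩, h.imp fun U h h' => absurd h' h⟩
      · obtain ⟨s, hs, h1⟩ := (cl (Q := fun U => ¬ SL Gp U (.ex θ)
          (fun i => mk U (cs (x' (d n).1) (fun _ => natN (d n).2) i)))).decide h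
        have h2 : Frc s fun U => ∃ a, L Gp U a ∧ SL Gp U θ
            (cs a fun i => mk U (cs (x' (d n).1) (fun _ => natN (d n).2) i)) :=
          h1.imp fun U h => not_not.1 h
        obtain ⟨a, ha⟩ := frc_ex h2
        obtain ⟨u, hu, y, h3, h4⟩ := L_elim (ha.imp fun _ h => h.1)
        refine ⟨u, hu.trans hs, ⟨y, h3⟩, fun U hU _ => ?_⟩
        have h5 := (ha.mono hu U hU).2
        have h6 : mk U a = mk U y := h4 U hU
        rw [h6, cs_mk] at h5
        exact h5)
  refine ⟨r, x', fun t k => (g' (hd (t, k)).choose).1, hx', fun t k => (g' _).2,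
    fun t => (hq t).mono hr, fun t k => ?_⟩
  have := hg' (hd (t, k)).choose
  rwa [(hd (t, k)).choose_spec] at this

end Pool.Agent.H54.ZK
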