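import Pool.Graph.R_pool_sql_team_ae5b0c61.H40.JzDefs

set_option autoImplicit false

/-! First-countable spaces, k-spaces and Fréchet-Urysohn spaces inside a structure `(M, E)`. -/

namespace Pool.Agent.H54.ZK

open Pool.Agent.H40.Bspt Pool.Agent.H40.Jz

variable {M : Type} (E : M → M → Prop)

/-- `V` is a neighbourhood of `x` in the space `(X, T)` -/
def Nbhd (X T x V : M) : Prop := Sub E V X ∧ ∃ U, E U T ∧ E x U ∧ Sub E U V

/-- every point has a countable neighbourhood base -/
def FirstCountable (X T : M) : Prop :=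
  ∀ x, E x X → ∃ B, Ctbl E B ∧ (∀ V, E V B → Nbhd E X T x V) ∧
    ∀ V, Nbhd E X T x V → ∃ W, E W B ∧ Sub E W V

/-- `A` is closed in `X` whenever `A ∩ K` is closed in `K` for every compact `K ⊆ X` -/
def KSpace (X T : M) : Prop :=
  ∀ A, Sub E A X → (∀ K C, Sub E K X → Compact E K T → (∀ z, E z C ↔ E z A ∧ E z K) →
    Closed E K T C) → Closed E X T A

/-- the sequence `σ` converges to `x` -/
def ConvTo (T : M) (σ : Om E → M) (x : M) : Prop :=
  ∀ U, E U T → E x U → ∃ k : Om E, ∀ n : Om E, E k.1 n.1 ∨ k = n → E (σ n) U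

/-- every point of the closure of a set `A` is the limit of a sequence of points of `A` (the
sequence being a set of the model) -/
def FrechetUrysohn (X T : M) : Prop :=
  ∀ A x, Sub E A X → E x X → (∀ U, E U T → E x U → ∃ y, E y U ∧ E y A) →
    ∃ σ : Om E → M, Intl E σ ∧ (∀ n, E (σ n) A) ∧ ConvTo E T σ x

/-- (K): every first-countable Hausdorff space is a k-space -/
def StK : Prop := ∀ X T, IsTop E X T → T2 E X T → FirstCountable E X T → KSpace E X T

/-- (FU): every first-countable Hausdorff space is Fréchet-Urysohn -/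
def StFU : Prop := ∀ X T, IsTop E X T → T2 E X T → FirstCountable E X T → FrechetUrysohn E X T

end Pool.Agent.H54.ZK
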