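import Pool.Graph.R_pool_sql_team_ae5b0c61.H40.Js5

set_option autoImplicit false

/-! Facts about Skolem hulls: pairs, transfer between hulls, standard natural numbers. -/

namespace Pool.Agent.H54.ZK

open Set Filter
open Pool.Agent.H42.ZF Pool.Agent.H40 Pool.Agent.H40.Js
open Pool.Agent.H40.Bspt (Fm IsZF UD IsNat IsFin)

section zf
open Pool.Agent.H40.Bspt
variable {M : Type} {E : M → M → Prop} (h : IsZF E)
include h

theorem zf_fin_of {a : M} (hf : {z | E z a}.Finite) : IsFin E a := by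
  generalize hs : {z | E z a} = s at hf
  induction s, hf using Set.Finite.induction_on generalizing a with
  | empty => exact h.fin0 fun y hy => (hs ▸ hy : y ∈ (∅ : Set M))
  | @insert y s h1 _ ih =>
    obtain ⟨b, hb⟩ := h.sepD' (P := fun w => ¬ w = y) (Df.eq' (Tm.var _) (Tm.const _)).neg a
    have e : ∀ w, E w a ↔ w = y ∨ w ∈ s := fun w => Set.ext_iff.1 hs w
    refine h.finS' (y := y) (ih (a := b) (Set.ext fun w => ?_)) fun w => ?_
    · show E w b ↔ _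
      rw [hb, e]
      exact ⟨fun h => h.1.resolve_left h.2, fun h => ⟨Or.inr h, fun e => h1 (e ▸ h)⟩⟩
    · rw [hb, e]; tauto

theorem zf_ex_fin {s : Set M} (hf : s.Finite) : ∃ a, ∀ z, E z a ↔ z ∈ s := by
  induction s, hf using Set.Finite.induction_on with
  | empty => exact h.emp.imp fun a h z => iff_of_false (h z) id
  | @insert y s _ _ ih =>
    obtain ⟨a, ha⟩ := ih
    exact (h.ins a y).imp fun b hb z => by rw [hb, ha]; exact or_comm

end zf

instance T_countable {B : Type} [Countable B] : Countable (T B) := by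
  obtain ⟨e, he⟩ := exists_injective_nat B
  obtain ⟨f, hf⟩ := exists_injective_nat Fm
  let enc : T B → ℕ := fun s => T.rec (motive := fun _ => ℕ) (fun b => Nat.pair 0 (e b))
    (fun _ _ a b => Nat.pair 1 (Nat.pair a b)) (fun φ _ a => Nat.pair 2 (Nat.pair (f φ) a)) s
  refine ⟨⟨enc, fun s => ?_⟩⟩
  induction s with
  | base b => intro t h; cases t <;> simp [enc] at h; exact congrArg _ (he h)
  | cons s t ih1 ih2 =>
    intro u h; cases u <;> simp [enc] at h; exact congrArg₂ _ (ih1 h.1) (ih2 h.2)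
  | sk φ t ih => intro u h; cases u <;> simp [enc] at h; exact congrArg₂ _ (hf h.1) (ih h.2)

variable {P : Type} [Preorder P] {Γ : Type} [Group Γ] [MulAction Γ P] [Mo Γ P] [NF Γ]
variable {B B' : Type} {ν : B → Nm P} {ν' : B' → Nm P} {U : Ult P}

theorem hull_up [Nonempty B] (hν : ∀ b, HS Γ (ν b)) (a b : H Γ ν U) : ∃ u : H Γ ν U,
    (∀ z, EH z u ↔ z = a ∨ z = b) ∧ ∀ z, E U z (j u) ↔ z = j a ∨ z = j b := by
  obtain ⟨u, hu⟩ := (hull_zf hν).pair a b
  refine ⟨u, hu, fun z => ⟨fun hz => ?_,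
    fun h => h.elim (· ▸ (hu a).2 (Or.inl rfl)) (· ▸ (hu b).2 (Or.inr rfl))⟩⟩
  by_contra hc
  rw [not_or] at hc
  obtain ⟨d, h1, h2, h3⟩ := tv (.and (.mem 0 1) (.and (.neg (.eq 0 2)) (.neg (.eq 0 3))))
    (Bspt.cons u (Bspt.cons a fun _ => b)) ⟨z, L_tr hz (j_L hν u), hz, hc⟩
  exact ((hu d).1 h1).elim (fun e => h2 (congrArg j e)) fun e => h3 (congrArg j e)

theorem hull_pair [Nonempty B] (hν : ∀ b, HS Γ (ν b)) (a b : H Γ ν U) : ∃ p : H Γ ν U,
    Bspt.IsPair EH p a b ∧ IsPair (E U) (j p) (j a) (j b) := by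
  obtain ⟨s, hs, hs'⟩ := hull_up hν a a
  obtain ⟨t, ht, ht'⟩ := hull_up hν a b
  obtain ⟨p, hp, hp'⟩ := hull_up hν s t
  have zf : IsZF (EH : H Γ ν U → H Γ ν U → Prop) := hull_zf hν
  refine ⟨p, ?_, ?_⟩
  · exact fun z => (hp z).trans (or_congr
      ⟨fun e w => by rw [e, hs, or_self], fun e => zf.ext _ _ fun w => by rw [e, hs, or_self]⟩
      ⟨fun e w => by rw [e, ht], fun e => zf.ext _ _ fun w => by rw [e, ht]⟩)
  · exact fun z => (hp' z).trans (or_congr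
      ⟨fun e w => by rw [e, hs', or_self], fun e => M_ext fun w => by rw [e, hs', or_self]⟩
      ⟨fun e w => by rw [e, ht'], fun e => M_ext fun w => by rw [e, ht']⟩)

theorem hull_app [Nonempty B] (hν : ∀ b, HS Γ (ν b)) {f a b : H Γ ν U} :
    Bspt.App EH f a b ↔ App (E U) (j f) (j a) (j b) := by
  obtain ⟨p, h1, h2⟩ := hull_pair hν a b
  constructor
  · rintro ⟨q, h3, h4⟩
    obtain rfl := (hull_zf hν).pair_uniq h1 h4
    exact ⟨_, h3, h2⟩
  · rintro ⟨q, h3, h4⟩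
    obtain rfl := h2.uniq h4
    exact ⟨p, h3, h1⟩

theorem ud_transfer {R : ∀ K : Type, (K → K → Prop) → (ℕ → K) → Prop} (hR : UD R)
    (hν : ∀ b, HS Γ (ν b)) (hν' : ∀ b, HS Γ (ν' b)) (w : ℕ → H Γ ν U) (w' : ℕ → H Γ ν' U)
    (hw : ∀ i, j (w i) = j (w' i)) : R _ EH w ↔ R _ EH w' := by
  obtain ⟨φ, hφ⟩ := hR
  rw [← hφ, ← hφ, truth hν, truth hν', funext hw]

theorem ud_ex {R : ∀ K : Type, (K → K → Prop) → (ℕ → K) → Prop} (hR : UD R)
    (hν : ∀ b, HS Γ (ν b)) (hν' : ∀ b, HS Γ (ν' b)) (a' : H Γ ν' U) (w : ℕ → H Γ ν U)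
    (w' : ℕ → H Γ ν' U) (hw : ∀ i, j (w i) = j (w' i)) (h : R _ EH (Bspt.cons a' w')) :
    ∃ a, R _ EH (Bspt.cons a w) := by
  obtain ⟨φ, hφ⟩ := hR
  rw [← hφ, truth hν', j_cons, ← funext hw] at h
  obtain ⟨b, hb⟩ := tv φ w ⟨j a', j_L hν' a', h⟩
  refine ⟨b, ?_⟩
  rw [← hφ, truth hν, j_cons]
  exact hb

/-- the natural numbers of the hull are standard -/
structure Std (ν : B → Nm P) (U : Ult P) where
  make ::
  nb : ℕ → B
  hnb : ∀ n, ν (nb n) = natN n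
  ob : B
  hob : ν ob = omegaN
  dd : ∀ s t : T B, ∃ p, Iic p ∈ U.U ∧ p ∈ DD (ev Γ ν s 0) (ev Γ ν t 0)

namespace Std

variable (S : Std (Γ := Γ) ν U)

noncomputable def N (n : ℕ) : H Γ ν U := hb (S.nb n)

theorem j_N (n : ℕ) : j (S.N n) = mk U (natN n) := by rw [N, j_hb, S.hnb]

include S in
theorem use {z : H Γ ν U} {b : B} (h : EH z (hb b)) :
    ∃ i, Iic ((ν b).b i) ∈ U.U ∧ j z = mk U ((ν b).A i) := by
  obtain ⟨s, hs⟩ := j_surj z
  unfold EH at h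
  rw [hs] at h ⊢
  obtain ⟨p, h1, h2⟩ := S.dd s (.base b)
  exact DD_use h2 h1 h

theorem N_inj {m n : ℕ} (h : S.N m = S.N n) : m = n := by
  have := congrArg j h
  rw [j_N, j_N] at this
  exact natN_inj this

theorem mem_N {n : ℕ} {z : H Γ ν U} : EH z (S.N n) ↔ ∃ m < n, z = S.N m := by
  unfold EH
  rw [j_N, mem_natN]
  exact exists_congr fun m => and_congr_right' (by rw [← j_N S]; exact j_inj.eq_iff)

include S in
theorem use' {z : H Γ ν U} {b : B} {y : Nm P} (e : ν b = y) (h : EH z (hb b)) :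
    ∃ i, Iic (y.b i) ∈ U.U ∧ j z = mk U (y.A i) := by
  subst e
  exact S.use h

theorem mem_om {z : H Γ ν U} : EH z (hb S.ob) ↔ ∃ m, z = S.N m := by
  constructor
  · intro h
    obtain ⟨i, -, hi⟩ := S.use' S.hob h
    exact ⟨i.1.1, j_inj (hi.trans (S.j_N _).symm)⟩
  · rintro ⟨m, rfl⟩
    unfold EH
    rw [j_N, j_hb, S.hob]
    exact nat_mem_omega m

theorem nat_iff [Nonempty B] (hν : ∀ b, HS Γ (ν b)) {a : H Γ ν U} :
    IsNat EH a ↔ ∃ n : ℕ, a = S.N n := by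
  have zf : IsZF (EH : H Γ ν U → H Γ ν U → Prop) := hull_zf hν
  have hs : ∀ n : ℕ, Bspt.IsS EH (S.N (n + 1 : ℕ)) (S.N n) (S.N n) := fun n w => by
    rw [S.mem_N, S.mem_N]
    constructor
    · rintro ⟨m, h, rfl⟩
      rcases Nat.lt_succ_iff_lt_or_eq.1 h with h | rfl
      exacts [Or.inl ⟨m, h, rfl⟩, Or.inr rfl]
    · rintro (⟨m, h, rfl⟩ | rfl)
      exacts [⟨m, by omega, rfl⟩, ⟨n, by omega, rfl⟩]
  have h0 : ∀ y, ¬ EH y (S.N 0) := fun y h => by simpa using S.mem_N.1 h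
  constructor
  · intro h
    refine S.mem_om.1 (h (hb S.ob) ⟨⟨S.N 0, S.mem_om.2 ⟨0, rfl⟩, h0⟩, fun x hx => ?_⟩)
    obtain ⟨n, rfl⟩ := S.mem_om.1 hx
    exact ⟨S.N (n + 1), S.mem_om.2 ⟨_, rfl⟩, hs n⟩
  · rintro ⟨n, rfl⟩
    induction n with
    | zero => exact zf.nat0 h0
    | succ n ih => exact zf.natS ih (hs n)

end Std

end Pool.Agent.H54.ZK
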