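import Pool.Agent.H54.ZK.Names
import Pool.Agent.H54.ZK.Hull

set_option autoImplicit false

/-! Finite families of names closed under a subgroup, and sequences of such families. -/

namespace Pool.Agent.H54.ZK

open Set Filter Cardinal Function
open Pool.Agent.H42.ZF Pool.Agent.H40 Pool.Agent.H40.Js
open Pool.Agent.H40.Bspt (Fm)

/-- the images of `x` under `SS γ n`, each below the corresponding image of `q` -/
noncomputable def FN (γ : W) (n : ℕ) (q : PP) (x : Nm PP) : Nm PP :=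
  fam (fun π : SS γ n => act π.1 x) (fun π U => Iic (π.1 • q) ∈ U.U)

variable {γ : W} {n : ℕ} {q : PP} {x : Nm PP}

theorem FN_dir {g : Gp} (hg : g ∈ SS γ n) (U : Ult PP) (z : Nm PP)
    (hz : E U (mk U z) (mk U (FN γ n q x))) :
    E (mv g U) (mk _ (act g z)) (mk _ (FN γ n q x)) := by
  have h1 := (E_mv (g := g)).2 hz
  generalize mv g U = V at h1 ⊢
  refine mem_cases (y := act g (FN γ n q x)) (R := fun V => E V (mk V (act g z))
    (mk V (FN γ n q x))) (fun i V hV e => ?_) V h1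
  obtain ⟨V', rfl⟩ := mv_surj g V
  rw [e]
  show E _ (mk _ (act g (act i.1.1.1 x))) _
  rw [act_mul]
  have h2 : Iic (i.1.1.1 • q) ∈ V'.U := i.2 V' (G_mv.1 hV)
  have h3 : Iic ((g * i.1.1.1) • q) ∈ (mv g V').U := by rw [mul_smul]; exact G_mv.2 h2
  exact fam_intro (A := fun π : SS γ n => act π.1 x) (Q := fun π U => Iic (π.1 • q) ∈ U.U)
    ⟨g * i.1.1.1, SS_mul hg i.1.1.2⟩ h3

theorem FN_act {g : Gp} (hg : g ∈ SS γ n) (U : Ult PP) :
    mk U (act g (FN γ n q x)) = mk U (FN γ n q x) :=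
  act_eq (fun U z => ⟨FN_dir hg U z, fun h3 => by
    have := E_mv (g := g) |>.2 (FN_dir (SS_inv hg) _ _ h3)
    rw [mv_inv, act_inv] at this
    exact E_mv.1 this⟩) U

theorem FN_hs (hx : HS Gp x) : HS Gp (FN γ n q x) :=
  hs_fam ((ev_SS γ n).mono fun _ hg U => FN_act hg U) fun _ => hs_act _ hx

theorem FN_cases (ψ φ : Fm) (w : ℕ → Nm PP)
    (hw : ∀ i, ∀ g ∈ SS γ n, ∀ U, mk U (act g (w i)) = mk U (w i))
    (hq : Frc q fun U => (SL Gp U ψ fun i => mk U (w i)) → SL Gp U φ fun i => mk U (cs x w i))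
    (z : Nm PP) (U : Ult PP) (hU : SL Gp U ψ fun i => mk U (w i))
    (hz : E U (mk U z) (mk U (FN γ n q x))) : SL Gp U φ fun i => mk U (cs z w i) := by
  revert hU
  refine fam_cases (A := fun π : SS γ n => act π.1 x) (Q := fun π U => Iic (π.1 • q) ∈ U.U)
    (R := fun U => (SL Gp U ψ fun i => mk U (w i)) → SL Gp U φ fun i => mk U (cs z w i))
    (fun π V hV e hψ => ?_) U hz
  obtain ⟨V', rfl⟩ := mv_surj π.1 V
  have e0 : (fun i => mk (mv π.1 V') (act π.1 (w i))) = fun i => mk (mv π.1 V') (w i) :=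
    funext fun i => hw i _ π.2 _
  rw [← e0, SL_mv] at hψ
  have h := (SL_mv π.1 V' φ (cs x w)).2 (hq V' (G_mv.1 hV) hψ)
  have e' : (fun i => mk (mv π.1 V') (act π.1 (cs x w i))) = fun i => mk (mv π.1 V') (cs z w i) := by
    funext i
    rcases i with _ | i
    · exact e.symm
    · exact hw i _ π.2 _
  rwa [e'] at h

theorem FN_ne {U : Ult PP} (hU : Iic q ∈ U.U) : E U (mk U x) (mk U (FN γ n q x)) := by
  have := fam_intro (A := fun π : SS γ n => act π.1 x) (Q := fun π U => Iic (π.1 • q) ∈ U.U)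
    (U := U) ⟨1, SS_one γ n⟩ (by rwa [one_smul])
  rwa [act_one] at this

theorem FN_fin {N : ℕ} (hN : ∀ g ∈ SS γ N, ∀ U, mk U (act g x) = mk U x) (U : Ult PP) :
    {z | E U z (mk U (FN γ n q x))}.Finite := by
  classical
  let J := Fin N → ZMod 2
  let ρ : J → Gp := fun c => if h : ∃ g ∈ SS γ n, ∀ m : Fin N, co g m [] = c m then h.choose else 1
  have key : ∀ g ∈ SS γ n, ∃ c : J, ∀ U, mk U (act g x) = mk U (act (ρ c) x) := by
    intro g hg
    let c : J := fun m => co g m []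
    have h : ∃ g ∈ SS γ n, ∀ m : Fin N, co g m [] = c m := ⟨g, hg, fun _ => rfl⟩
    have hρ : ρ c = h.choose := dif_pos h
    have h1 := h.choose_spec
    rw [← hρ] at h1
    refine ⟨c, fun U => ?_⟩
    have h2 := SS_coset (N := N) h1.1 hg fun m hm => h1.2 ⟨m, hm⟩
    obtain ⟨V, rfl⟩ := mv_surj (ρ c) U
    have h3 := mk_mv (g := ρ c).2 (hN _ h2 V)
    rwa [act_mul, mul_inv_cancel_left] at h3
  refine (finite_range fun c : J => mk U (act (ρ c) x)).subset fun z hz => ?_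
  obtain ⟨z, rfl⟩ := mk_surj z
  have : C (fun U => ∃ c : J, mk U z = mk U (act (ρ c) x)) :=
    ⟨(cl_not (cl_fin (Q := fun (c : J) U => ¬ mk U z = mk U (act (ρ c) x)) fun _ => cl)).congr
      fun U => by simp⟩
  obtain ⟨c, hc⟩ := fam_cases (A := fun π : SS γ n => act π.1 x)
    (Q := fun π U => Iic (π.1 • q) ∈ U.U) (R := fun U => ∃ c : J, mk U z = mk U (act (ρ c) x))
    (fun π V _ e => (key π.1 π.2).imp fun c hc => e.trans (hc V)) U hz
  exact ⟨c, hc.symm⟩

/-- the sequence of the families of the `x k` -/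
noncomputable def FF (γ : W) (n : ℕ) (q : PP) (x : ℕ → Nm PP) : Nm PP :=
  fullN fun k => FN γ n q (x k)

theorem FF_hs {x : ℕ → Nm PP} (hx : ∀ k, HS Gp (x k)) : HS Gp (FF γ n q x) := by
  show HS Gp (fam (fun k : ℕ => kpair (natN k) (FN γ n q (x k))) fun _ _ => True)
  refine hs_fam ((ev_SS γ n).mono fun g hg U => ?_) fun k =>
    hs_upair (hs_upair (hs_nat k) (hs_nat k)) (hs_upair (hs_nat k) (FN_hs (hx k)))
  exact fam_act (A := fun k => kpair (natN k) (FN γ n q (x k)))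
    (B := fun k => kpair (natN k) (FN γ n q (x k))) (Q := fun _ _ => True) (Q' := fun _ _ => True)
    (fun k U => upair_act (upair_act (nat_act g k) (nat_act g k))
      (upair_act (nat_act g k) (FN_act hg)) U) (fun _ _ => Iff.rfl) U

theorem ex_supp {y : Nm PP} (hy : HS Gp y) : ∃ γ n, ∀ g ∈ SS γ n, ∀ U, mk U (act g y) = mk U y :=
  ev_F.1 (hs_iff.1 hy).1

theorem ex_supps {y : Nm PP} {x : ℕ → Nm PP} (hy : HS Gp y) (hx : ∀ k, HS Gp (x k)) :
    ∃ γ n, (∀ g ∈ SS γ n, ∀ U, mk U (act g y) = mk U y) ∧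
      ∀ k, ∃ N, ∀ g ∈ SS γ N, ∀ U, mk U (act g (x k)) = mk U (x k) := by
  obtain ⟨γ0, n0, h0⟩ := ex_supp hy
  choose γ' n' h' using fun k => ex_supp (hx k)
  obtain ⟨γ, hγ⟩ := W_bdd (S := insert γ0 (range γ')) ((countable_range _).insert _)
  obtain ⟨n, -, hn⟩ := SS_mono (hγ _ (mem_insert _ _)).le n0
  refine ⟨γ, n, fun g hg => h0 g (hn n le_rfl hg), fun k => ?_⟩
  obtain ⟨N, -, hN⟩ := SS_mono (hγ _ (mem_insert_of_mem _ (mem_range_self k))).le (n' k)
  exact ⟨N, fun g hg => h' k g (hN N le_rfl hg)⟩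

end Pool.Agent.H54.ZK
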