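import Pool.Agent.H54.ZK.Tower
import Pool.Graph.R_pool_sql_team_ae5b0c61.H40.Js4

set_option autoImplicit false

/-! The group, its filter, the action on conditions. -/

namespace Pool.Agent.H54.ZK

open Set Filter Cardinal
open Pool.Agent.H42.ZF Pool.Agent.H40.Js

/-- coherent finitely supported parities on the tree of sequences of length at most `m` -/
def Adm (m : ℕ) (c : List W → ZMod 2) : Prop :=
  ∀ v : List W, v.length < m → (Function.support fun s => c (s :: v)).Finite ∧
    c v = ∑ᶠ s, c (s :: v)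

def AG : AddSubgroup (ℕ → List W → ZMod 2) where
  carrier := {c | ∀ m, Adm m (c m)}
  add_mem' := fun {a b} ha hb m v hv => by
    refine ⟨((ha m v hv).1.union (hb m v hv).1).subset (Function.support_add _ _), ?_⟩
    show a m v + b m v = ∑ᶠ s, (a m (s :: v) + b m (s :: v))
    rw [finsum_add_distrib (ha m v hv).1 (hb m v hv).1, ← (ha m v hv).2, ← (hb m v hv).2]
  zero_mem' := fun m v _ => by
    refine ⟨?_, ?_⟩
    · show (Function.support fun _ => (0 : ZMod 2)).Finite
      simp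
    · show (0 : ZMod 2) = ∑ᶠ s : W, (0 : ZMod 2)
      simp
  neg_mem' := fun {a} ha m v hv => by
    refine ⟨(ha m v hv).1.subset fun s hs => ?_, ?_⟩
    · exact fun h => hs (by show - a m (s :: v) = 0; rw [show a m (s :: v) = 0 from h, neg_zero])
    · show - a m v = ∑ᶠ s, - a m (s :: v)
      rw [finsum_neg_distrib, ← (ha m v hv).2]

abbrev Gp : Type := Multiplicative AG

def co (g : Gp) (m : ℕ) (v : List W) : ZMod 2 := (Multiplicative.toAdd g).1 m v

theorem co_mul (g h : Gp) (m : ℕ) (v : List W) : co (g * h) m v = co g m v + co h m v := rfl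

theorem co_one (m : ℕ) (v : List W) : co 1 m v = 0 := rfl

theorem co_inv (g : Gp) (m : ℕ) (v : List W) : co g⁻¹ m v = co g m v := by
  show - co g m v = co g m v
  exact CharTwo.neg_eq _

theorem co_adm (g : Gp) (m : ℕ) : Adm m (co g m) := (Multiplicative.toAdd g).2 m

open Classical in
def HH (γ : W) (g : Gp) (m : ℕ) : Prop := ∀ v : List W, v.length < m → (∀ x ∈ v, x < γ) →
  ∀ s, co g m (s :: v) = if (s :: v) <:+ sg γ m then co g m [] else 0

def SS (γ : W) (n : ℕ) : Set Gp := {g | (∀ m, HH γ g m) ∧ ∀ m < n, co g m [] = 0}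

theorem SS_one (γ : W) (n : ℕ) : 1 ∈ SS γ n :=
  ⟨fun m v _ _ s => by simp [co_one], fun m _ => co_one _ _⟩

theorem SS_mul {γ : W} {n : ℕ} {g h : Gp} (hg : g ∈ SS γ n) (hh : h ∈ SS γ n) : g * h ∈ SS γ n :=
  ⟨fun m v a b s => by
    rw [co_mul, co_mul, hg.1 m v a b s, hh.1 m v a b s]; split_ifs <;> simp,
    fun m hm => by rw [co_mul, hg.2 m hm, hh.2 m hm, add_zero]⟩

theorem SS_inv {γ : W} {n : ℕ} {g : Gp} (hg : g ∈ SS γ n) : g⁻¹ ∈ SS γ n :=
  ⟨fun m v a b s => by rw [co_inv, co_inv, hg.1 m v a b s],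
    fun m hm => by rw [co_inv, hg.2 m hm]⟩

theorem HH_mono {γ β : W} (h : γ ≤ β) : ∀ᶠ m in atTop, ∀ g, HH β g m → HH γ g m := by
  filter_upwards [sg_le h] with m a g hg v hv hv' s
  rw [hg v hv (fun x hx => (hv' x hx).trans_le h) s]
  simp only [suf_iff a (sg_mem γ m) fun h => lt_irrefl _ (hv' _ h)]

theorem HH_zero {γ β : W} (h : γ ≤ β) {g : Gp} {m : ℕ} (hg : HH β g m) (h0 : co g m [] = 0) :
    HH γ g m := fun v hv hv' s => by
  rw [hg v hv (fun x hx => (hv' x hx).trans_le h) s, h0]; simp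

theorem SS_mono {γ β : W} (h : γ ≤ β) (n : ℕ) : ∃ k, n ≤ k ∧ ∀ k', k ≤ k' → SS β k' ⊆ SS γ n := by
  obtain ⟨N, hN⟩ := eventually_atTop.1 (HH_mono h)
  refine ⟨max N n, le_max_right _ _, fun k' hk g hg => ⟨fun m => ?_, fun m hm =>
    hg.2 m (lt_of_lt_of_le hm ((le_max_right _ _).trans hk))⟩⟩
  rcases lt_or_ge m k' with hm | hm
  · exact HH_zero h (hg.1 m) (hg.2 m hm)
  · exact hN m (((le_max_left _ _).trans hk).trans hm) g (hg.1 m)

theorem SS_anti {γ : W} {n k : ℕ} (h : n ≤ k) : SS γ k ⊆ SS γ n :=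
  fun _ hg => ⟨hg.1, fun m hm => hg.2 m (lt_of_lt_of_le hm h)⟩

theorem SS_coset {γ : W} {n N : ℕ} {g h : Gp} (hg : g ∈ SS γ n) (hh : h ∈ SS γ n)
    (e : ∀ m < N, co g m [] = co h m []) : g⁻¹ * h ∈ SS γ N := by
  have := SS_mul (SS_inv hg) hh
  refine ⟨this.1, fun m hm => ?_⟩
  rw [co_mul, co_inv, e m hm]
  exact CharTwo.add_self_eq_zero _

instance : NF Gp where
  F :=
    { sets := {J | ∃ γ n, SS γ n ⊆ J}
      univ_sets := ⟨Classical.arbitrary W, 0, subset_univ _⟩
      sets_of_superset := fun ⟨γ, n, h⟩ h' => ⟨γ, n, h.trans h'⟩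
      inter_sets := fun {J K} ⟨γ, n, h⟩ ⟨γ', n', h'⟩ => by
        obtain ⟨k, -, hk⟩ := SS_mono (le_max_left γ γ') n
        obtain ⟨k', -, hk'⟩ := SS_mono (le_max_right γ γ') n'
        exact ⟨max γ γ', max k k', subset_inter ((hk _ (le_max_left _ _)).trans h)
          ((hk' _ (le_max_right _ _)).trans h')⟩ }
  conj h := by
    have : (fun g : Gp => h⁻¹ * g * h) = id := funext fun g => by
      show h⁻¹ * g * h = g
      rw [mul_right_comm, inv_mul_cancel, one_mul]
    rw [this]; exact tendsto_id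
  inv := fun J ⟨γ, n, h⟩ => ⟨γ, n, fun g hg => h (SS_inv hg)⟩

theorem mem_F {J : Set Gp} : J ∈ NF.F (Γ := Gp) ↔ ∃ γ n, SS γ n ⊆ J := Iff.rfl

theorem ev_F {p : Gp → Prop} : (∀ᶠ g in NF.F (Γ := Gp), p g) ↔ ∃ γ n, ∀ g ∈ SS γ n, p g := Iff.rfl

theorem ev_SS (γ : W) (n : ℕ) : ∀ᶠ g in NF.F (Γ := Gp), g ∈ SS γ n := ⟨γ, n, fun _ h => h⟩

/-- the value at `[]` and at nodes all of whose entries are below `γ` vanishes -/
theorem co_zero {γ : W} {n m : ℕ} {g : Gp} (hg : g ∈ SS γ n) (hm : m < n) {v : List W}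
    (hv : ∀ x ∈ v, x < γ) (hl : v.length ≤ m) : co g m v = 0 := by
  cases v with
  | nil => exact hg.2 m hm
  | cons s v =>
    rw [hg.1 m v (by simpa using hl) (fun x hx => hv x (List.mem_cons_of_mem _ hx)) s, hg.2 m hm]
    simp

theorem co_zero' {γ : W} {n m : ℕ} {g : Gp} (hg : g ∈ SS γ n) (hm : m < n) {v : List W}
    (hv : ∀ x ∈ v, x < γ) (hl : v.length < m) (s : W) : co g m (s :: v) = 0 := by
  rw [hg.1 m v hl hv s, hg.2 m hm]; simp

theorem ex_bd (v : List W) : ∃ γ, ∀ x ∈ v, x < γ :=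
  W_bdd (S := {x | x ∈ v}) (List.finite_toSet v).countable

theorem ex_child {v u : List W} (h : v <:+ u) (hl : v.length < u.length) :
    ∃ s, (s :: v) <:+ u := by
  obtain ⟨t, rfl⟩ := h
  rcases List.eq_nil_or_concat' t with rfl | ⟨t', s, rfl⟩
  · simp at hl
  · exact ⟨s, t', by simp⟩

theorem suf_uniq {v u : List W} {s s' : W} (h : (s :: v) <:+ u) (h' : (s' :: v) <:+ u) : s = s' := by
  have : s :: v = s' :: v := by
    rcases List.suffix_or_suffix_of_suffix h h' with h1 | h1
    · exact h1.eq_of_length (by simp)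
    · exact (h1.eq_of_length (by simp)).symm
  exact (List.cons.inj this).1

open Classical in
/-- change of the parity at a bottom node -/
noncomputable def eu (u : List W) : Gp := Multiplicative.ofAdd
  ⟨fun m v => if m = u.length ∧ v <:+ u then 1 else 0, fun m v hv => by
    by_cases hm : m = u.length
    · subst hm
      simp only [true_and]
      by_cases h : v <:+ u
      · obtain ⟨s, hs⟩ := ex_child h hv
        have hf : ∀ s', s' ≠ s → (if (s' :: v) <:+ u then (1 : ZMod 2) else 0) = 0 :=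
          fun s' hs' => if_neg fun h' => hs' (suf_uniq h' hs)
        refine ⟨(finite_singleton s).subset fun s' hs' => ?_, ?_⟩
        · by_contra hc
          exact hs' (hf s' hc)
        · rw [finsum_eq_single _ s hf, if_pos h, if_pos hs]
      · have hf : ∀ s, (if (s :: v) <:+ u then (1 : ZMod 2) else 0) = 0 :=
          fun s => if_neg fun h' => h ((List.suffix_cons _ _).trans h')
        refine ⟨?_, ?_⟩
        · simp only [hf]; simp
        · simp only [hf, if_neg h]; simp
    · simp [hm]⟩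

open Classical in
theorem co_eu (u : List W) (m : ℕ) (v : List W) :
    co (eu u) m v = if m = u.length ∧ v <:+ u then 1 else 0 := rfl

theorem eu_SS {γ : W} {n : ℕ} {u : List W} (hn : n ≤ u.length) (h : sg γ u.length <:+ u) :
    eu u ∈ SS γ n := by
  refine ⟨fun m v hv hv' s => ?_, fun m hm => ?_⟩
  · rw [co_eu, co_eu]
    by_cases hm : m = u.length
    · subst hm
      simp only [suf_iff h (sg_mem γ _) fun h => lt_irrefl _ (hv' _ h)]
      simp
    · simp [hm]
  · rw [co_eu, if_neg fun h => by omega]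

/-- the conditions -/
abbrev PP : Type := Fn ℵ₁ ((List W × ZMod 2) × W) Bool

theorem Fn_ext {θ : Cardinal.{0}} {L V : Type} {p q : Fn θ L V} (h : ∀ x, p.f x = q.f x) :
    p = q := by
  cases p; cases q; congr 1; exact funext h

def sh (g : Gp) (x : List W × ZMod 2) : List W × ZMod 2 := (x.1, x.2 + co g x.1.length x.1)

theorem sh_sh (g : Gp) (x : List W × ZMod 2) : sh g (sh g x) = x := by
  refine Prod.ext rfl ?_
  show x.2 + co g x.1.length x.1 + co g x.1.length x.1 = x.2
  rw [add_assoc, CharTwo.add_self_eq_zero, add_zero]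

instance : MulAction Gp PP where
  smul g p := ⟨fun x => p.f (sh g x.1, x.2), lt_of_le_of_lt (mk_le_of_injective
    (f := fun x => (⟨(sh g x.1.1, x.1.2), x.2⟩ : {x | p.f x ≠ none})) fun a b h => by
      have h1 := congrArg Subtype.val h
      simp only [Prod.mk.injEq] at h1
      exact Subtype.ext (Prod.ext (by rw [← sh_sh g a.1.1, h1.1, sh_sh]) h1.2)) p.small⟩
  one_smul p := Fn_ext fun x => by
    show p.f (sh 1 x.1, x.2) = p.f x
    congr 1
    exact Prod.ext (Prod.ext rfl (by simp [sh, co_one])) rfl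
  mul_smul g h p := Fn_ext fun x => by
    show p.f (sh (g * h) x.1, x.2) = p.f (sh h (sh g x.1), x.2)
    congr 2
    refine Prod.ext rfl ?_
    show x.1.2 + _ = x.1.2 + _ + _
    rw [co_mul, add_assoc]; rfl

theorem smul_f (g : Gp) (p : PP) (x : (List W × ZMod 2) × W) :
    (g • p).f x = p.f (sh g x.1, x.2) := rfl

instance : Mo Gp PP := ⟨fun _ _ _ h _ k hk => h _ k hk⟩

theorem eu_fix {u : List W} {p : PP} (h : ∀ i ξ, p.f ((u, i), ξ) = none) : eu u • p = p := by
  refine Fn_ext fun x => ?_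
  rw [smul_f]
  by_cases hx : x.1.1 = u
  · rw [show sh (eu u) x.1 = (u, (sh (eu u) x.1).2) from Prod.ext hx rfl, h,
      show x = ((u, x.1.2), x.2) from Prod.ext (Prod.ext hx rfl) rfl, h]
  · have : sh (eu u) x.1 = x.1 := by
      refine Prod.ext rfl ?_
      show x.1.2 + co (eu u) _ _ = x.1.2
      rw [co_eu, if_neg, add_zero]
      rintro ⟨h1, h2⟩
      exact hx (h2.eq_of_length h1)
    rw [this]

/-- bottom nodes above `σ` that do not occur in a condition -/
theorem ex_u {σ : List W} {m : ℕ} (h : σ.length < m) (p : PP) : ∃ u : List W, u.length = m ∧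
    σ <:+ u ∧ ∀ i ξ, p.f ((u, i), ξ) = none := by
  let w : List W := List.replicate (m - 1 - σ.length) (Classical.arbitrary W) ++ σ
  have hc : {x | p.f x ≠ none}.Countable := (countable_iff_lt_aleph_one _).2 p.small
  obtain ⟨s, hs⟩ := W_avoid ((hc.image fun x => x.1.1).image fun l => l.headD (Classical.arbitrary W))
  refine ⟨s :: w, by simp [w]; omega, (List.suffix_append _ _).trans (List.suffix_cons _ _), fun i ξ => ?_⟩
  by_contra hn
  exact hs ⟨_, ⟨_, hn, rfl⟩, rfl⟩

end Pool.Agent.H54.ZK
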