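import Pool.Agent.H54.ZK.Core

set_option autoImplicit false

/-! The model. -/

namespace Pool.Agent.H54.ZK

open Set Filter Cardinal Function
open Pool.Agent.H42.ZF Pool.Agent.H40 Pool.Agent.H40.Js
open Pool.Agent.H40.Bspt (Fm IsZF UD IsNat IsFin)

/-- The properties of the model used below: the natural numbers are standard, `X` is the set of
the points `al o`, every sequence of nonempty sets has a multiple choice function, and no sequence
of points `al o` meets infinitely many levels. -/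
structure Mod (M : Type) (E : M → M → Prop) where
  make ::
  zf : IsZF E
  N : ℕ → M
  mem_N : ∀ n z, E z (N n) ↔ ∃ m < n, z = N m
  nat : ∀ z, IsNat E z ↔ ∃ n, z = N n
  N_inj : Injective N
  X : M
  al : Option (ℕ × ZMod 2) → M
  al_inj : Injective al
  mem_X : ∀ z, E z X ↔ ∃ o, z = al o
  al_none : ∀ z, ¬ E z (al none)
  al_some : ∀ m i, ∃ y, Bspt.IsPair E (al (some (m, i))) (N m) y
  cmc : ∀ f, (∀ n, ∃ x, TH E x f (N n)) → ∃ g, MCf E g f
  noseq : ∀ f (a : ℕ → Option (ℕ × ZMod 2)), (∀ n y, Bspt.App E f (N n) y ↔ y = al (a n)) →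
    ¬ ∀ k, ∃ n m i, k ≤ m ∧ a n = some (m, i)

/-- base of the larger hull -/
abbrev Bt : Type := Bs ⊕ (T Bs ⊕ (T Bs ⊕ T Bs × ℕ))

instance : Countable (T Bs) := T_countable

instance : Countable Bt := inferInstance

instance : Countable (T Bt) := T_countable

theorem ex_mod : ∃ (M : Type) (E : M → M → Prop), Countable M ∧ Nonempty (Mod M E) := by
  haveI : Nonempty Bs := ⟨.inl 0⟩
  obtain ⟨θ, hθ⟩ := ud_TH 0 1 2
  obtain ⟨q, x', xo, hx', hxo, hq, hqo⟩ := core θ
  choose γ n hy hN using fun t => ex_supps (hx' t) (hxo t)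
  let nu' : Bt → Nm PP := Sum.elim nu (Sum.elim x' (Sum.elim
    (fun t => FF (γ t) (n t) q (xo t)) fun t => FN (γ t.1) (n t.1) q (xo t.1 t.2)))
  have nu'_hs : ∀ b, HS Gp (nu' b) := by
    rintro (b | t | t | t)
    exacts [nu_hs b, hx' t, FF_hs (hxo t), FN_hs (hxo _ _)]
  haveI : Nonempty Bt := ⟨.inl (.inl 0)⟩
  obtain ⟨r, hr, hD⟩ := PP_dist (ι := (T Bs × T Bs) ⊕ (T Bt × T Bt))
    (Sum.elim (fun s => DD (ev Gp nu s.1 0) (ev Gp nu s.2 0))
      fun s => DD (ev Gp nu' s.1 0) (ev Gp nu' s.2 0))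
    (by rintro (s | s) <;> exact DD_lower _ _) (by rintro (s | s) <;> exact DD_dense _ _) q
  obtain ⟨U, hU⟩ := ex_ult r
  have hUq : Iic q ∈ U.U := frc_G hr U hU
  let S : Std (Γ := Gp) nu U := ⟨fun k => .inl k, fun _ => rfl, .inr (.inl ()), rfl,
    fun s t => ⟨r, hU, hD (.inl (s, t))⟩⟩
  let S' : Std (Γ := Gp) nu' U := ⟨fun k => .inl (.inl k), fun _ => rfl, .inl (.inr (.inl ())), rfl,
    fun s t => ⟨r, hU, hD (.inr (s, t))⟩⟩
  have zf : IsZF (EH : H Gp nu U → H Gp nu U → Prop) := hull_zf nu_hs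
  let al : Option (ℕ × ZMod 2) → H Gp nu U := fun o => hb (.inr (.inr (.inr (.inl o))))
  have j_al : ∀ o, j (al o) = mk U (pN o) := fun _ => rfl
  have al_inj : Injective al := fun o o' h => pN_inj (U := U) (congrArg j h)
  have hj : ∀ f : H Gp nu U, ∃ t, j f = mk U (x' t) := fun f => by
    obtain ⟨t, ht⟩ := j_surj f
    exact ⟨t, ht.trans (hq t U hUq)⟩
  refine ⟨H Gp nu U, EH, ?_, ⟨⟨zf, S.N, fun n z => S.mem_N, fun z => S.nat_iff nu_hs,
    fun _ _ h => S.N_inj h, hb (.inr (.inr (.inl ()))), al, al_inj, fun z => ⟨fun h => ?_, ?_⟩,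
    fun z h => ?_, fun m i => ?_, fun f hf => ?_, fun f a hf hk => ?_⟩⟩⟩
  · unfold H; infer_instance
  · obtain ⟨i, -, hi⟩ := S.use' (y := XN) rfl h
    exact ⟨i.1.1.1, j_inj hi⟩
  · rintro ⟨o, rfl⟩
    exact setN_intro pN (mem_univ o) U
  · exact not_mem_zero (j z) h
  · refine ⟨hb (.inr (.inr (.inr (.inr (m, i))))), ?_⟩
    obtain ⟨p, h1, h2⟩ := hull_pair nu_hs (S.N m) (hb (.inr (.inr (.inr (.inr (m, i))))) : H Gp nu U)
    have h3 : j p = j (al (some (m, i))) := by
      rw [S.j_N] at h2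
      exact h2.uniq (isPair_kpair (natN m) (YN m [] i))
    rwa [j_inj h3] at h1
  · obtain ⟨t, ht⟩ := hj f
    let f' : H Gp nu' U := hb (.inr (.inl t))
    let g' : H Gp nu' U := hb (.inr (.inr (.inl t)))
    have hψ : ∀ k, SL Gp U (.ex θ) (fun i => mk U (cs (x' t) (fun _ => natN k) i)) := by
      intro k
      have h1 : Bspt.Sat EH (.ex θ) (Bspt.cons f fun _ => S.N k) :=
        (hf k).imp fun x hx => (hθ _ _ _).2 hx
      rw [truth nu_hs] at h1
      have e : (fun i => j (Bspt.cons f (fun _ => S.N k) i)) =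
          fun i => mk U (cs (x' t) (fun _ => natN k) i) := by
        funext i
        rcases i with _ | i
        exacts [ht, S.j_N k]
      rwa [e] at h1
    have key : MCf EH g' f' := by
      intro m hm
      obtain ⟨k, rfl⟩ := (S'.nat_iff nu'_hs).1 hm
      refine ⟨hb (.inr (.inr (.inr (t, k)))), fun y => ?_, ?_, ?_, fun x hx => ?_⟩
      · rw [hull_app nu'_hs, S'.j_N]
        refine (app_fullN_iff (g := fun k => FN (γ t) (n t) q (xo t k)) (n := k)).trans ?_
        exact j_inj.eq_iff (a := y) (b := hb (.inr (.inr (.inr (t, k)))))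
      · exact tv (.mem 0 1) (fun _ => (hb (.inr (.inr (.inr (t, k)))) : H Gp nu' U))
          ⟨mk U (xo t k), L_hs (hxo t k) U, FN_ne hUq⟩
      · refine zf_fin_of (hull_zf nu'_hs) ?_
        obtain ⟨N, hN⟩ := hN t k
        exact (FN_fin (q := q) (n := n t) hN U).preimage (f := (j : H Gp nu' U → M U)) j_inj.injOn
      · obtain ⟨ζ, hζ⟩ := mk_surj (j x)
        have h1 := FN_cases (.ex θ) θ (cs (x' t) fun _ => natN k) (by
            rintro (_ | i) g hg V
            exacts [hy t g hg V, nat_act g k V]) (hqo t k) ζ U (hψ k)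
          (by rw [hζ]; exact hx)
        refine (hθ _ _ (Bspt.cons x (Bspt.cons f' fun _ => S'.N k))).1 ?_
        rw [truth nu'_hs]
        have e : (fun i => j (Bspt.cons x (Bspt.cons f' fun _ => S'.N k) i)) =
            fun i => mk U (cs ζ (cs (x' t) fun _ => natN k) i) := by
          funext i
          rcases i with _ | _ | i
          exacts [hζ.symm, rfl, S'.j_N k]
        rwa [e]
    exact ud_ex ud_MCf nu_hs nu'_hs g' (fun _ => f) (fun _ => f') (fun _ => ht) key
  · obtain ⟨t, ht⟩ := hj f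
    obtain ⟨γ, k0, hγ⟩ := ex_supp (hx' t)
    obtain ⟨K, hK⟩ := eventually_atTop.1 (sg_len γ)
    obtain ⟨n, m, i, hm, ha⟩ := hk (max k0 K)
    obtain ⟨χ, hχ⟩ := UD.app 0 1 2
    let v : ZMod 2 → ℕ → Nm PP := fun i => cs (x' t) (cs (natN n) fun _ => aN m i)
    have hv : ∀ i, Bspt.App EH f (S.N n) (al (some (m, i))) ↔ SL Gp U χ fun l => mk U (v i l) := by
      intro i
      refine (hχ _ _ (Bspt.cons f (Bspt.cons (S.N n) fun _ => al (some (m, i))))).symm.trans ?_
      rw [truth nu_hs]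
      refine iff_of_eq (congrArg _ (funext fun l => ?_))
      rcases l with _ | _ | l
      exacts [ht, S.j_N n, rfl]
    have hi : i ≠ i + 1 := by simp
    have h1 : SL Gp U χ (fun l => mk U (v i l)) ∧ ¬ SL Gp U χ fun l => mk U (v (i + 1) l) := by
      rw [← hv, ← hv, hf, hf, ha]
      exact ⟨rfl, fun h => hi (congrArg Prod.snd (Option.some.inj (al_inj h))).symm⟩
    have hc : Cl (fun U => SL Gp U χ (fun l => mk U (v i l)) ∧
        ¬ SL Gp U χ fun l => mk U (v (i + 1) l)) :=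
      cl_and (cl_SL χ (v i)) (cl_not (cl_SL χ (v (i + 1))))
    obtain ⟨r, -, hr⟩ := hc.ex hUq h1
    obtain ⟨u, hu, hu1, hu2⟩ := ex_u (hK m (le_trans (le_max_right _ _) hm)) r
    obtain ⟨V, hV⟩ := ex_ult r
    have h2 : Iic r ∈ (mv (eu u) V).U := by
      have := (G_mv (g := eu u)).2 hV
      rwa [eu_fix hu2] at this
    have h3 := (SL_mv (eu u) V χ (v i)).2 (hr V hV).1
    have e : (fun l => mk (mv (eu u) V) (act (eu u) (v i l))) =
        fun l => mk (mv (eu u) V) (v (i + 1) l) := by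
      funext l
      rcases l with _ | _ | l
      · refine hγ _ (eu_SS ?_ ?_) _
        · rw [hu]; exact le_trans (le_max_left _ _) hm
        · rw [hu]; exact hu1
      · exact nat_act _ n _
      · show mk _ (act (eu u) (aN m i)) = mk _ (aN m (i + 1))
        rw [aN_act, co_eu, if_pos ⟨hu.symm, List.nil_suffix⟩]
    rw [e] at h3
    exact (hr _ h2).2 h3

end Pool.Agent.H54.ZK
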