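import Pool.Agent.H54.ZK.Gp

set_option autoImplicit false

/-! Names for the Cohen sets and for the nested pairs built from them. -/

namespace Pool.Agent.H54.ZK

open Set Filter Cardinal Function
open Pool.Agent.H42.ZF Pool.Agent.H40.Js

noncomputable def rN (x : List W × ZMod 2) : Nm PP :=
  fam chk fun (η : W) U => ((gen (x, η) true : LowerSet PP) : Set PP) ∈ U.U

theorem rN_act (g : Gp) (x : List W × ZMod 2) (U : Ult PP) :
    mk U (act g (rN x)) = mk U (rN (sh g x)) := by
  refine fam_act (chk_act g) (fun η U => ?_) U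
  rw [mem_mv]
  refine iff_of_eq (congrArg (· ∈ U.U) (Set.ext fun p => ?_))
  show p.f (sh g (sh g x), η) = _ ↔ p.f (x, η) = _
  rw [sh_sh]

theorem rN_inj (x y : List W × ZMod 2) (U : Ult PP) (h : mk U (rN x) = mk U (rN y)) : x = y := by
  by_contra hc
  refine (cl (Q := fun U => mk U (rN x) ≠ mk U (rN y))).all (fun p => ?_) U h
  have hcnt : {z | p.f z ≠ none}.Countable := (countable_iff_lt_aleph_one _).2 p.small
  obtain ⟨η, hη⟩ := W_avoid (hcnt.image Prod.snd)
  have hn : ∀ z, p.f (z, η) = none := fun z => by_contra fun h => hη ⟨_, h, rfl⟩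
  obtain ⟨q, h1, h2, h3⟩ := p.add (aleph0_le_aleph 1) (hn x) true
  obtain ⟨r, h4, h5, -⟩ := q.add (aleph0_le_aleph 1) (x := (y, η))
    (by rw [h3 _ (by simpa using Ne.symm hc), hn]) false
  refine ⟨r, h4.trans h1, fun V hV e => ?_⟩
  have a : E V (mk V (chk η)) (mk V (rN x)) := fam_intro η (frc_lower (h4 _ _ h2) V hV)
  have b : E V (mk V (chk η)) (mk V (rN y)) := e ▸ a
  exact fam_cases (R := fun V => ¬ Iic r ∈ V.U) (fun ζ W c d hW => by
    obtain rfl := chk_inj d
    exact Bool.noConfusion (gen_uniq c (frc_lower h5 W hW))) V b hV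

theorem rN_hs (x : List W × ZMod 2) : HS Gp (rN x) := by
  refine hs_iff.2 ⟨?_, fun _ => chk_hs _⟩
  obtain ⟨γ, hγ⟩ := ex_bd x.1
  filter_upwards [ev_SS γ (x.1.length + 1)] with g hg U
  rw [rN_act, sh, co_zero hg (Nat.lt_succ_self _) hγ le_rfl, add_zero]

/-- finitely supported functions with given sum -/
def FS (i : ZMod 2) : Set (W → ZMod 2) := {h | (support h).Finite ∧ ∑ᶠ s, h s = i}

noncomputable def YN : ℕ → List W → ZMod 2 → Nm PP
  | 0 => fun v i => rN (v, i)
  | d + 1 => fun v i => setN (fun h : W → ZMod 2 => setN (fun s => YN d (s :: v) (h s)) univ) (FS i)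

noncomputable def ZN (d : ℕ) (v : List W) (h : W → ZMod 2) : Nm PP :=
  setN (fun s => YN d (s :: v) (h s)) univ

theorem YN_succ (d : ℕ) (v : List W) (i : ZMod 2) : YN (d + 1) v i = setN (ZN d v) (FS i) := rfl

theorem FS_add {c : W → ZMod 2} (hc : (support c).Finite) {h : W → ZMod 2} {i : ZMod 2} :
    h - c ∈ FS i ↔ h ∈ FS (i + ∑ᶠ s, c s) := by
  have key : ∀ {h c : W → ZMod 2} {i : ZMod 2}, (support c).Finite → h ∈ FS i →
      h + c ∈ FS (i + ∑ᶠ s, c s) := by
    intro h c i hc hh
    refine ⟨(hh.1.union hc).subset (support_add _ _), ?_⟩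
    show ∑ᶠ s, (h s + c s) = _
    rw [finsum_add_distrib hh.1 hc, hh.2]
  constructor
  · intro hh
    simpa using key hc hh
  · intro hh
    have hc' : (support (-c)).Finite := by rwa [support_neg]
    have := key hc' hh
    rw [show (∑ᶠ s, (-c) s) = - ∑ᶠ s, c s from finsum_neg_distrib _, add_neg_cancel_right] at this
    rwa [sub_eq_add_neg]

theorem ZN_act' {g : Gp} {d : ℕ} (ih : ∀ (v : List W) (i : ZMod 2) (U : Ult PP),
    mk U (act g (YN d v i)) = mk U (YN d v (i + co g (v.length + d) v)))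
    (v : List W) (h : W → ZMod 2) (U : Ult PP) : mk U (act g (ZN d v h)) =
      mk U (ZN d v (h + fun s => co g (v.length + (d + 1)) (s :: v))) := by
  refine fam_act (A := fun s : (univ : Set W) => YN d (s.1 :: v) (h s.1))
    (B := fun s : (univ : Set W) => YN d (s.1 :: v) (h s.1 + co g (v.length + (d + 1)) (s.1 :: v)))
    (Q := fun _ _ => True) (Q' := fun _ _ => True) (fun i U => ?_) (fun _ _ => Iff.rfl) U
  rw [ih, show (i.1 :: v).length + d = v.length + (d + 1) by simp only [List.length_cons]; omega]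

theorem YN_act (g : Gp) (d : ℕ) : ∀ (v : List W) (i : ZMod 2) (U : Ult PP),
    mk U (act g (YN d v i)) = mk U (YN d v (i + co g (v.length + d) v)) := by
  induction d with
  | zero => exact fun v i U => rN_act g (v, i) U
  | succ d ih =>
    intro v i U
    obtain ⟨h1, h2⟩ := co_adm g (v.length + (d + 1)) v (by omega)
    rw [YN_succ, setN_act (Equiv.addRight fun s => co g (v.length + (d + 1)) (s :: v))
      (ZN_act' ih v), YN_succ]
    refine congrArg (fun s => mk U (setN (ZN d v) s)) (Set.ext fun h => ?_)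
    rw [h2]
    refine Iff.trans ?_ (FS_add h1)
    rw [sub_eq_add_neg]
    rfl

theorem ZN_act (g : Gp) (d : ℕ) (v : List W) (h : W → ZMod 2) (U : Ult PP) :
    mk U (act g (ZN d v h)) = mk U (ZN d v (h + fun s => co g (v.length + (d + 1)) (s :: v))) :=
  ZN_act' (YN_act g d) v h U

theorem FS_ne (i : ZMod 2) : ∃ h, h ∈ FS i := by
  classical
  let w : W := Classical.arbitrary W
  have hf : ∀ s, s ≠ w → (if s = w then i else 0) = 0 := fun s hs => if_neg hs
  refine ⟨fun s => if s = w then i else 0, (finite_singleton w).subset fun s hs => ?_, ?_⟩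
  · by_contra hc
    exact hs (hf s hc)
  · rw [finsum_eq_single _ w hf, if_pos rfl]

theorem YN_inj (d : ℕ) : ∀ (v v' : List W) (i i' : ZMod 2) (U : Ult PP),
    mk U (YN d v i) = mk U (YN d v' i') → v = v' ∧ i = i' := by
  induction d with
  | zero => exact fun v v' i i' U h => Prod.mk.inj (rN_inj _ _ U h)
  | succ d ih =>
    intro v v' i i' U h
    obtain ⟨h0, h1⟩ := FS_ne i
    have a : E U (mk U (ZN d v h0)) (mk U (YN (d + 1) v i)) := setN_intro (ZN d v) h1 U
    rw [h, YN_succ] at a
    refine setN_cases (R := fun _ => v = v' ∧ i = i') (fun h' V hh' e => ?_) U a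
    have key : ∀ s, v = v' ∧ h0 s = h' s := by
      intro s
      have b : E V (mk V (YN d (s :: v) (h0 s))) (mk V (ZN d v h0)) :=
        setN_intro (fun s => YN d (s :: v) (h0 s)) (mem_univ s) V
      rw [e, ZN] at b
      refine setN_cases (R := fun _ => v = v' ∧ h0 s = h' s) (fun s' V' _ e' => ?_) V b
      obtain ⟨h2, h3⟩ := ih _ _ _ _ V' e'
      obtain ⟨rfl, h4⟩ := List.cons.inj h2
      exact ⟨h4, h3⟩
    refine ⟨(key (Classical.arbitrary W)).1, ?_⟩
    have : h0 = h' := funext fun s => (key s).2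
    rw [← h1.2, ← hh'.2, this]

theorem YN_hs (d : ℕ) : ∀ (v : List W) (i : ZMod 2), HS Gp (YN d v i) := by
  induction d with
  | zero => exact fun v i => rN_hs (v, i)
  | succ d ih =>
    intro v i
    obtain ⟨γ, hγ⟩ := ex_bd v
    refine hs_iff.2 ⟨?_, fun h => hs_iff.2 ⟨?_, fun s => ih _ _⟩⟩
    · filter_upwards [ev_SS γ (v.length + (d + 1) + 1)] with g hg U
      rw [YN_act, co_zero hg (Nat.lt_succ_self _) hγ (by omega), add_zero]
    · filter_upwards [ev_SS γ (v.length + (d + 1) + 1)] with g hg U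
      show mk U (act g (ZN d v h.1.1)) = mk U (ZN d v h.1.1)
      rw [ZN_act]
      congr 2
      funext s
      show _ + co g (v.length + (d + 1)) (s :: v) = _
      rw [co_zero' hg (Nat.lt_succ_self _) hγ (by omega), add_zero]

/-- the tagged elements of the pairs -/
noncomputable def aN (m : ℕ) (i : ZMod 2) : Nm PP := kpair (natN m) (YN m [] i)

theorem aN_act (g : Gp) (m : ℕ) (i : ZMod 2) (U : Ult PP) :
    mk U (act g (aN m i)) = mk U (aN m (i + co g m [])) := by
  refine upair_act (upair_act (nat_act g m) (nat_act g m)) (upair_act (nat_act g m) fun U => ?_) U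
  rw [YN_act]
  simp

theorem aN_hs (m : ℕ) (i : ZMod 2) : HS Gp (aN m i) :=
  hs_upair (hs_upair (hs_nat _) (hs_nat _)) (hs_upair (hs_nat _) (YN_hs _ _ _))

theorem aN_inj {m m' : ℕ} {i i' : ZMod 2} {U : Ult PP} (h : mk U (aN m i) = mk U (aN m' i')) :
    m = m' ∧ i = i' := by
  have := (isPair_kpair (U := U) (natN m) (YN m [] i)).inj
    ((h ▸ isPair_kpair (U := U) (natN m') (YN m' [] i')) :
      IsPair (E U) (mk U (kpair (natN m) (YN m [] i))) _ _)
  obtain rfl := natN_inj this.1
  exact ⟨rfl, (YN_inj m _ _ _ _ U this.2).2⟩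

/-- the names of the points of the space -/
noncomputable def pN : Option (ℕ × ZMod 2) → Nm PP
  | none => natN 0
  | some x => aN x.1 x.2

theorem pN_hs (o : Option (ℕ × ZMod 2)) : HS Gp (pN o) := by
  rcases o with _ | x
  exacts [hs_nat 0, aN_hs _ _]

def shO (g : Gp) : Option (ℕ × ZMod 2) ≃ Option (ℕ × ZMod 2) :=
  Function.Involutive.toPerm (fun o => o.map fun x => (x.1, x.2 + co g x.1 [])) fun o => by
    rcases o with _ | x
    · rfl
    · show some (x.1, x.2 + co g x.1 [] + co g x.1 []) = _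
      rw [add_assoc, CharTwo.add_self_eq_zero, add_zero]

theorem pN_act (g : Gp) (o : Option (ℕ × ZMod 2)) (U : Ult PP) :
    mk U (act g (pN o)) = mk U (pN (shO g o)) := by
  rcases o with _ | x
  exacts [nat_act g 0 U, aN_act g _ _ U]

theorem pN_inj {o o' : Option (ℕ × ZMod 2)} {U : Ult PP} (h : mk U (pN o) = mk U (pN o')) :
    o = o' := by
  have key : ∀ x : ℕ × ZMod 2, mk U (natN 0) ≠ mk U (aN x.1 x.2) := by
    intro x e
    have : E U (mk U (upair (natN x.1) (natN x.1))) (mk U (aN x.1 x.2)) := by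
      rw [aN, kpair, mem_upair]; exact Or.inl rfl
    rw [← e] at this
    exact not_mem_zero _ this
  rcases o with _ | x <;> rcases o' with _ | y
  · rfl
  · exact absurd h (key y)
  · exact absurd h.symm (key x)
  · obtain ⟨h1, h2⟩ := aN_inj h
    exact congrArg some (Prod.ext h1 h2)

noncomputable def XN : Nm PP := setN pN univ

theorem XN_hs : HS Gp XN := by
  refine hs_iff.2 ⟨Eventually.of_forall fun g U => ?_, fun i => pN_hs _⟩
  rw [XN, setN_act (shO g) (pN_act g)]
  rfl

end Pool.Agent.H54.ZK
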