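import Pool.Agent.H54.ZK.TopK

set_option autoImplicit false

/-! A first-countable Hausdorff space that is not Fréchet-Urysohn. -/

namespace Pool.Agent.H54.ZK

open Set Function
open Pool.Agent.H40.Bspt Pool.Agent.H40.Jz

variable {M : Type} {E : M → M → Prop} (S : Mod M E)

namespace Mod

include S

theorem lev {o : Option (ℕ × ZMod 2)} {k : ℕ} : (∃ y, IsPair E (S.al o) (S.N k) y) ↔
    ∃ i, o = some (k, i) := by
  constructor
  · rintro ⟨y, hy⟩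
    rcases o with _ | ⟨m, i⟩
    · obtain ⟨z, hz⟩ := zf_ex_fin S.zf (finite_singleton (S.N k))
      exact absurd ((hy z).2 (Or.inl fun w => by rw [hz]; rfl)) (S.al_none z)
    · obtain ⟨y', hy'⟩ := S.al_some m i
      obtain rfl := S.N_inj (S.zf.pair_inj hy hy').1
      exact ⟨i, rfl⟩
  · rintro ⟨i, rfl⟩
    exact S.al_some k i

/-- the basic neighbourhoods of the limit point -/
def isW (W n : M) : Prop := ∀ z, E z W ↔ E z S.X ∧ (z = S.al none ∨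
  ∃ m y, IsNat E m ∧ ¬ E m n ∧ IsPair E z m y)

theorem isW_iff {W : M} {k : ℕ} : S.isW W (S.N k) ↔
    ∀ z, E z W ↔ z = S.al none ∨ ∃ m i, k ≤ m ∧ z = S.al (some (m, i)) := by
  refine forall_congr' fun z => iff_congr Iff.rfl ?_
  constructor
  · rintro ⟨h1, h2 | ⟨m, y, h2, h3, h4⟩⟩
    · exact Or.inl h2
    · obtain ⟨o, rfl⟩ := (S.mem_X z).1 h1
      obtain ⟨m, rfl⟩ := (S.nat m).1 h2
      obtain ⟨i, rfl⟩ := S.lev.1 ⟨y, h4⟩
      rw [S.N_mem] at h3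
      exact Or.inr ⟨m, i, by omega, rfl⟩
  · rintro (rfl | ⟨m, i, h, rfl⟩)
    · exact ⟨(S.mem_X _).2 ⟨_, rfl⟩, Or.inl rfl⟩
    · obtain ⟨y, hy⟩ := S.al_some m i
      exact ⟨(S.mem_X _).2 ⟨_, rfl⟩, Or.inr ⟨S.N m, y, S.N_nat m, by rw [S.N_mem]; omega, hy⟩⟩

theorem df_isW : Df E Bool fun w => S.isW (w false) (w true) := by
  unfold isW
  repeat' first | exact Tm.var _ | exact Tm.const _ | apply Df.pair | apply Df.nat | apply Df.mem' | apply Df.eq' | apply Df.and | apply Df.or | apply Df.neg | apply Df.iff | apply Df.all' | apply Df.ex'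

theorem ex_W (k : ℕ) : ∃ W, S.isW W (S.N k) := by
  refine S.zf.sepD' (P := fun z => z = S.al none ∨ ∃ m y, IsNat E m ∧ ¬ E m (S.N k) ∧ IsPair E z m y) ?_ S.X
  repeat' first | exact Tm.var _ | exact Tm.const _ | apply Df.pair | apply Df.nat | apply Df.mem' | apply Df.eq' | apply Df.and | apply Df.or | apply Df.neg | apply Df.ex'

noncomputable def Wn (k : ℕ) : M := (S.ex_W k).choose

theorem mem_W {k : ℕ} {z : M} : E z (S.Wn k) ↔ z = S.al none ∨ ∃ m i, k ≤ m ∧ z = S.al (some (m, i)) :=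
  S.isW_iff.1 (S.ex_W k).choose_spec z

theorem isW_Wn (k : ℕ) : S.isW (S.Wn k) (S.N k) := (S.ex_W k).choose_spec

theorem isW_eq {k : ℕ} {W : M} : S.isW W (S.N k) ↔ W = S.Wn k :=
  ⟨fun h => S.zf.ext _ _ fun z => (h z).trans ((S.isW_Wn k) z).symm, fun h => h ▸ S.isW_Wn k⟩

theorem Wn_inj {k l : ℕ} (h : S.Wn k = S.Wn l) : k = l := by
  have key : ∀ {k l : ℕ}, S.Wn k = S.Wn l → l ≤ k := by
    intro k l h
    have h1 : E (S.al (some (k, 0))) (S.Wn k) := S.mem_W.2 (Or.inr ⟨k, 0, le_rfl, rfl⟩)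
    rw [h] at h1
    rcases S.mem_W.1 h1 with h2 | ⟨m, i, h2, h3⟩
    · exact absurd (S.al_inj h2) (by simp)
    · have := Option.some.inj (S.al_inj h3)
      rw [(Prod.mk.inj this).1]; exact h2
  exact le_antisymm (key h.symm) (key h)

theorem ex_top : ∃ T, ∀ W, E W T ↔ Sub E W S.X ∧ (E (S.al none) W → ∃ k : ℕ, Sub E (S.Wn k) W) := by
  obtain ⟨PX, hPX⟩ := S.zf.power S.X
  obtain ⟨T, hT⟩ := S.zf.sepD' (P := fun W => E (S.al none) W → ∃ n, IsNat E n ∧ ∀ V, S.isW V n →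
    ∀ z, E z V → E z W) (by
      refine Df.imp ?_ (Df.ex' (Df.and ?_ (Df.all' (Df.imp (S.df_isW.sub (fun w b => cond b (w (some none)) (w none)) ?_) ?_))))
      · exact Df.mem' (Tm.const _) (Tm.var _)
      · exact Df.nat (Tm.var _)
      · rintro (_ | _) <;> exact Tm.var _
      · repeat' first | exact Tm.var _ | exact Tm.const _ | apply Df.mem' | apply Df.imp | apply Df.all') PX
  refine ⟨T, fun W => (hT W).trans (and_congr (hPX W) (imp_congr Iff.rfl ?_))⟩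
  constructor
  · rintro ⟨n, hn, h⟩
    obtain ⟨k, rfl⟩ := (S.nat n).1 hn
    exact ⟨k, h _ (S.isW_Wn k)⟩
  · rintro ⟨k, hk⟩
    exact ⟨S.N k, S.N_nat k, fun V hV => S.isW_eq.1 hV ▸ hk⟩

theorem sub_W {k l : ℕ} (h : k ≤ l) : Sub E (S.Wn l) (S.Wn k) := fun z hz => by
  rw [S.mem_W] at hz ⊢
  exact hz.imp id fun ⟨m, i, h1, h2⟩ => ⟨m, i, h.trans h1, h2⟩

theorem not_stFU : ¬ StFU E := by
  intro hFU
  obtain ⟨T, hT⟩ := S.ex_top
  have hWX : ∀ k, Sub E (S.Wn k) S.X := fun k z hz => by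
    rcases S.mem_W.1 hz with rfl | ⟨m, i, -, rfl⟩
    exacts [(S.mem_X _).2 ⟨_, rfl⟩, (S.mem_X _).2 ⟨_, rfl⟩]
  have hWT : ∀ k, E (S.Wn k) T := fun k => (hT _).2 ⟨hWX k, fun _ => ⟨k, fun _ h => h⟩⟩
  have h0 : ∀ k, E (S.al none) (S.Wn k) := fun k => S.mem_W.2 (Or.inl rfl)
  have hsing : ∀ x, ∃ s, ∀ z, E z s ↔ z = x := fun x => zf_ex_fin S.zf (finite_singleton x)
  choose sg hsg using hsing
  have hsT : ∀ x, E (sg (S.al (some x))) T := fun x => (hT _).2 ⟨fun z hz => by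
    rw [hsg] at hz; exact (S.mem_X _).2 ⟨_, hz⟩, fun h => by
      rw [hsg] at h; exact absurd (S.al_inj h) (by simp)⟩
  have htop : IsTop E S.X T := by
    refine ⟨fun U hU => ((hT U).1 hU).1, (hT _).2 ⟨fun _ h => h, fun _ => ⟨0, hWX 0⟩⟩,
      fun U V W hU hV hW => ?_, fun C W hC hW => ?_⟩
    · refine (hT W).2 ⟨fun z hz => ((hT U).1 hU).1 z ((hW z).1 hz).1, fun h => ?_⟩
      obtain ⟨h1, h2⟩ := (hW _).1 h
      obtain ⟨k, hk⟩ := ((hT U).1 hU).2 h1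
      obtain ⟨l, hl⟩ := ((hT V).1 hV).2 h2
      exact ⟨max k l, fun z hz => (hW z).2 ⟨hk z (S.sub_W (le_max_left _ _) z hz),
        hl z (S.sub_W (le_max_right _ _) z hz)⟩⟩
    · refine (hT W).2 ⟨fun z hz => ?_, fun h => ?_⟩
      · obtain ⟨U, h1, h2⟩ := (hW z).1 hz
        exact ((hT U).1 (hC U h1)).1 z h2
      · obtain ⟨U, h1, h2⟩ := (hW _).1 h
        obtain ⟨k, hk⟩ := ((hT U).1 (hC U h1)).2 h2
        exact ⟨k, fun z hz => (hW z).2 ⟨U, h1, hk z hz⟩⟩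
  have hT2 : T2 E S.X T := by
    have key : ∀ m i, ∃ U V, E U T ∧ E V T ∧ E (S.al none) U ∧ E (S.al (some (m, i))) V ∧
        ∀ z, E z S.X → E z U → ¬ E z V := by
      intro m i
      refine ⟨S.Wn (m + 1), sg (S.al (some (m, i))), hWT _, hsT _, h0 _, (hsg _ _).2 rfl,
        fun z _ h1 h2 => ?_⟩
      obtain rfl := (hsg _ z).1 h2
      rcases S.mem_W.1 h1 with h3 | ⟨m', i', h3, h4⟩
      · exact absurd (S.al_inj h3) (by simp)
      · have := Prod.mk.inj (Option.some.inj (S.al_inj h4))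
        omega
    intro x y hx hy hxy
    obtain ⟨o, rfl⟩ := (S.mem_X x).1 hx
    obtain ⟨o', rfl⟩ := (S.mem_X y).1 hy
    rcases o with _ | ⟨m, i⟩ <;> rcases o' with _ | ⟨m', i'⟩
    · exact absurd rfl hxy
    · exact key m' i'
    · obtain ⟨U, V, h1, h2, h3, h4, h5⟩ := key m i
      exact ⟨V, U, h2, h1, h4, h3, fun z hz h6 h7 => h5 z hz h7 h6⟩
    · exact ⟨_, _, hsT (m, i), hsT (m', i'), (hsg _ _).2 rfl, (hsg _ _).2 rfl,
        fun z _ h1 h2 => hxy (((hsg _ z).1 h1).symm.trans ((hsg _ z).1 h2))⟩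
  have hfc : FirstCountable E S.X T := by
    intro x hx
    obtain ⟨o, rfl⟩ := (S.mem_X x).1 hx
    rcases o with _ | x
    · obtain ⟨ω, hω⟩ := S.zf.omega'
      obtain ⟨B, hB⟩ := S.zf.sepD' (P := fun W => ∃ n, IsNat E n ∧ S.isW W n) (Df.ex' (Df.and
        (Df.nat (Tm.var _)) (S.df_isW.sub (fun w b => cond b (w none) (w (some ())))
          (by rintro (_ | _) <;> exact Tm.var _)))) T
      have hB' : ∀ W, E W B ↔ ∃ k, W = S.Wn k := by
        intro W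
        rw [hB]
        constructor
        · rintro ⟨-, n, h1, h2⟩
          obtain ⟨k, rfl⟩ := (S.nat n).1 h1
          exact ⟨k, S.isW_eq.1 h2⟩
        · rintro ⟨k, rfl⟩
          exact ⟨hWT k, S.N k, S.N_nat k, S.isW_Wn k⟩
      have hk : ∀ W : Ex E B, ∃ k, W.1 = S.Wn k := fun W => (hB' W.1).1 W.2
      choose κ hκ using hk
      refine ⟨B, ⟨fun W => ⟨S.N (κ W), S.N_nat _⟩, ?_, fun W V h => ?_⟩, fun V hV => ?_, fun V hV => ?_⟩
      · refine S.zf.intl (R := fun W n => S.isW W n) S.df_isW B ω (fun W => W.2)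
          (fun W => (hω _).2 (S.N_nat _)) fun W y hy => ?_
        obtain ⟨l, rfl⟩ := (S.nat y).1 ((hω y).1 hy)
        rw [S.isW_eq, hκ W]
        exact ⟨fun h => congrArg S.N (S.Wn_inj h).symm, fun h => congrArg S.Wn (S.N_inj h).symm⟩
      · have := S.N_inj (congrArg Subtype.val h)
        exact Subtype.ext ((hκ W).trans ((congrArg S.Wn this).trans (hκ V).symm))
      · obtain ⟨k, rfl⟩ := (hB' V).1 hV
        exact ⟨hWX k, S.Wn k, hWT k, h0 k, fun _ h => h⟩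
      · obtain ⟨-, U, h1, h2, h3⟩ := hV
        obtain ⟨k, hk⟩ := ((hT U).1 h1).2 h2
        exact ⟨S.Wn k, (hB' _).2 ⟨k, rfl⟩, fun z hz => h3 z (hk z hz)⟩
    · obtain ⟨B, hB⟩ : ∃ B, ∀ z, E z B ↔ z = sg (S.al (some x)) := ⟨_, hsg _⟩
      refine ⟨B, ⟨fun _ => ⟨S.N 0, S.N_nat 0⟩, ?_, fun W V _ => ?_⟩, fun V hV => ?_, fun V hV => ?_⟩
      · refine S.zf.intl (R := fun _ n => n = S.N 0) (Df.eq' (Tm.var _) (Tm.const _)) B (S.N 1)
          (fun W => W.2) (fun W => S.N_mem.2 (by omega)) fun W y hy => Iff.rfl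
      · exact Subtype.ext (((hB _).1 W.2).trans ((hB _).1 V.2).symm)
      · obtain rfl := (hB V).1 hV
        exact ⟨((hT _).1 (hsT x)).1, _, hsT x, (hsg _ _).2 rfl, fun _ h => h⟩
      · obtain ⟨-, U, h1, h2, h3⟩ := hV
        exact ⟨_, (hB _).2 rfl, fun z hz => by
          obtain rfl := (hsg _ z).1 hz
          exact h3 _ h2⟩
  obtain ⟨A, hA⟩ := S.zf.sepD' (P := fun z => ¬ z = S.al none)
    (Df.eq' (Tm.var _) (Tm.const _)).neg S.X
  obtain ⟨σ, ⟨f, hf⟩, h1, h2⟩ := hFU S.X T htop hT2 hfc A (S.al none) (fun z hz => ((hA z).1 hz).1)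
    ((S.mem_X _).2 ⟨_, rfl⟩) fun U h1 h2 => by
      obtain ⟨k, hk⟩ := ((hT U).1 h1).2 h2
      exact ⟨S.al (some (k, 0)), hk _ (S.mem_W.2 (Or.inr ⟨k, 0, le_rfl, rfl⟩)),
        (hA _).2 ⟨(S.mem_X _).2 ⟨_, rfl⟩, fun h => absurd (S.al_inj h) (by simp)⟩⟩
  have ha : ∀ n, ∃ o, σ ⟨S.N n, S.N_nat n⟩ = S.al o := fun n => (S.mem_X _).1 ((hA _).1 (h1 _)).1
  choose a ha using ha
  refine S.noseq f a (fun n y => (hf ⟨S.N n, S.N_nat n⟩ y).trans (by rw [ha])) fun k => ?_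
  obtain ⟨⟨m, hm⟩, h3⟩ := h2 (S.Wn k) (hWT k) (h0 k)
  obtain ⟨n, rfl⟩ := (S.nat m).1 hm
  have h4 := h3 ⟨S.N n, hm⟩ (Or.inr rfl)
  rcases S.mem_W.1 h4 with h5 | ⟨m, i, h5, h6⟩
  · exact absurd h5 ((hA _).1 (h1 _)).2
  · exact ⟨n, m, i, h5, S.al_inj ((ha n).symm.trans h6)⟩

end Mod

/-- the main theorem -/
theorem main : ∃ (M : Type) (E : M → M → Prop), Countable M ∧ IsZF E ∧ StK E ∧ ¬ StFU E := by
  obtain ⟨M, E, h, ⟨S⟩⟩ := ex_mod
  exact ⟨M, E, h, S.zf, S.stK, S.not_stFU⟩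

end Pool.Agent.H54.ZK
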