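import Pool.Agent.H54.ZK.Model
import Pool.Agent.H54.ZK.Defs

set_option autoImplicit false

/-! Countable multiple choice makes first-countable spaces k-spaces. -/

namespace Pool.Agent.H54.ZK

open Set Function
open Pool.Agent.H40.Bspt Pool.Agent.H40.Jz

variable {M : Type} {E : M → M → Prop} (S : Mod M E)

namespace Mod

include S

theorem fin_ext {a : M} (h : IsFin E a) : {z | E z a}.Finite := by
  obtain ⟨n, f, h1, h2⟩ := h
  obtain ⟨n, rfl⟩ := (S.nat _).1 h1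
  have : {z | E z (S.N n)}.Finite :=
    ((finite_lt_nat n).image fun m : ℕ => S.N m).subset fun z hz => by
      obtain ⟨m, h, e⟩ := (S.mem_N n z).1 hz
      exact ⟨m, h, e.symm⟩
  choose! G hG hG' using h2.1
  refine (this.image G).subset fun y hy => ?_
  obtain ⟨x, h3, -⟩ := h2.2 y hy
  exact ⟨x, h3.1, (hG' x h3.1 y ⟨hy, h3.2⟩).symm⟩

theorem N_nat (n : ℕ) : IsNat E (S.N n) := (S.nat _).2 ⟨n, rfl⟩

theorem N_mem {m n : ℕ} : E (S.N m) (S.N n) ↔ m < n :=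
  (S.mem_N _ _).trans ⟨fun ⟨_, h, e⟩ => S.N_inj e ▸ h, fun h => ⟨m, h, rfl⟩⟩

theorem stK : StK E := by
  intro X T hT _ hFC A hA hK
  refine ⟨hA, fun x hx hxA => ?_⟩
  by_contra hc
  push Not at hc
  obtain ⟨B, ⟨φ, ⟨c, hφ⟩, hφi⟩, hB1, hB2⟩ := hFC x hx
  have hval : ∀ b : Ex E B, ∃ k, (φ b).1 = S.N k := fun b => (S.nat _).1 (φ b).2
  -- the sequence of sets
  obtain ⟨ω, hω⟩ := S.zf.omega'
  obtain ⟨PA, hPA⟩ := S.zf.power A
  obtain ⟨f, hf⟩ := S.zf.rel (R := fun n Y => ∀ z, E z Y ↔ E z A ∧ ∀ b, E b B → ∀ k, App E c b k →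
    E k n → E z b) (by
      repeat' first | exact Tm.var _ | exact Tm.const _ | apply Df.app | apply Df.mem' | apply Df.and | apply Df.iff | apply Df.all' | apply Df.imp) ω PA
  have hY : ∀ n, ∃ Y, ∀ z, E z Y ↔ E z A ∧ ∀ b, E b B → ∀ k, App E c b k → E k n → E z b := fun n =>
    S.zf.sepD' (P := fun z => ∀ b, E b B → ∀ k, App E c b k → E k n → E z b) (by
      repeat' first | exact Tm.var _ | exact Tm.const _ | apply Df.app | apply Df.mem' | apply Df.all' | apply Df.imp) A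
  choose Y hY using hY
  have hfY : ∀ n y, App E f (S.N n) y ↔ y = Y (S.N n) := by
    intro n y
    rw [hf]
    constructor
    · rintro ⟨-, -, h⟩
      exact S.zf.ext _ _ fun z => (h z).trans (hY _ z).symm
    · rintro rfl
      exact ⟨(hω _).2 (S.N_nat n), (hPA _).2 fun z hz => ((hY _ z).1 hz).1, hY _⟩
  have hU : ∀ n : ℕ, ∃ U, E U T ∧ E x U ∧ ∀ b : Ex E B, E (φ b).1 (S.N n) → Sub E U b.1 := by
    intro n
    induction n with
    | zero =>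
      refine ⟨X, hT.2.1, hx, fun b hb => ?_⟩
      obtain ⟨k, hk⟩ := hval b
      rw [hk, S.N_mem] at hb
      omega
    | succ n ih =>
      obtain ⟨U, h1, h2, h3⟩ := ih
      by_cases hb : ∃ b, (φ b).1 = S.N n
      · obtain ⟨b, hb⟩ := hb
        obtain ⟨-, V, h4, h5, h6⟩ := hB1 b.1 b.2
        obtain ⟨W, hW⟩ := S.zf.sepD' (P := fun z => E z V) (Df.mem' (Tm.var _) (Tm.const _)) U
        refine ⟨W, hT.2.2.1 U V W h1 h4 hW, (hW x).2 ⟨h2, h5⟩, fun b' hb' z hz => ?_⟩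
        obtain ⟨k, hk⟩ := hval b'
        rw [hk, S.N_mem] at hb'
        rcases Nat.lt_succ_iff_lt_or_eq.1 hb' with h | rfl
        · exact h3 b' (by rw [hk, S.N_mem]; exact h) z ((hW z).1 hz).1
        · have : b' = b := hφi (Subtype.ext (hk.trans hb.symm))
          subst this
          exact h6 z ((hW z).1 hz).2
      · refine ⟨U, h1, h2, fun b' hb' => h3 b' ?_⟩
        obtain ⟨k, hk⟩ := hval b'
        rw [hk, S.N_mem] at hb' ⊢
        rcases Nat.lt_succ_iff_lt_or_eq.1 hb' with h | rfl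
        · exact h
        · exact absurd ⟨b', hk⟩ hb
  have hne : ∀ n, ∃ z, TH E z f (S.N n) := by
    intro n
    obtain ⟨U, h1, h2, h3⟩ := hU n
    obtain ⟨z, h4, h5⟩ := hc U h1 h2
    refine ⟨z, Y (S.N n), hfY n, (hY _ z).2 ⟨h5, fun b hb k hk hk' => ?_⟩⟩
    obtain rfl := (hφ ⟨b, hb⟩ k).1 hk
    exact h3 ⟨b, hb⟩ hk' z h4
  obtain ⟨g, hg⟩ := S.cmc f hne
  choose F hF1 hF2 hF3 hF4 using fun n : ℕ => hg (S.N n) (S.N_nat n)
  have hFA : ∀ n z, E z (F n) → E z A ∧ ∀ b : Ex E B, E (φ b).1 (S.N n) → E z b.1 := by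
    intro n z hz
    obtain ⟨Z, h1, h2⟩ := hF4 n z hz
    obtain rfl := (h1 _).1 ((hfY n _).2 rfl)
    obtain ⟨h3, h4⟩ := (hY _ z).1 h2
    exact ⟨h3, fun b hb => h4 b.1 b.2 _ ((hφ b _).2 rfl) hb⟩
  -- the compact set
  obtain ⟨K, hKK⟩ := S.zf.sepD' (P := fun z => z = x ∨ ∃ n, IsNat E n ∧ ∃ G, App E g n G ∧ E z G) (by
    repeat' first | exact Tm.var _ | exact Tm.const _ | apply Df.app | apply Df.nat | apply Df.mem' | apply Df.eq' | apply Df.and | apply Df.or | apply Df.ex') X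
  have hKm : ∀ z, E z K ↔ z = x ∨ ∃ n, E z (F n) := by
    intro z
    rw [hKK]
    constructor
    · rintro ⟨-, h | ⟨n, hn, G, h1, h2⟩⟩
      · exact Or.inl h
      · obtain ⟨n, rfl⟩ := (S.nat _).1 hn
        obtain rfl := (hF1 n G).1 h1
        exact Or.inr ⟨n, h2⟩
    · rintro (rfl | ⟨n, hn⟩)
      · exact ⟨hx, Or.inl rfl⟩
      · exact ⟨hA z (hFA n z hn).1, Or.inr ⟨S.N n, S.N_nat n, F n, (hF1 n _).2 rfl, hn⟩⟩
  have hnb : ∀ U, E U T → E x U → ∃ k : ℕ, ∀ n, k < n → ∀ z, E z (F n) → E z U := by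
    intro U h1 h2
    obtain ⟨b, hb, hb'⟩ := hB2 U ⟨hT.1 U h1, U, h1, h2, fun _ h => h⟩
    obtain ⟨k, hk⟩ := hval ⟨b, hb⟩
    exact ⟨k, fun n hn z hz => hb' z ((hFA n z hz).2 ⟨b, hb⟩ (by rw [hk, S.N_mem]; exact hn))⟩
  have hcomp : Compact E K T := by
    intro C hC hcov
    obtain ⟨U, hU1, hU2⟩ := hcov x ((hKm x).2 (Or.inl rfl))
    obtain ⟨k, hk⟩ := hnb U (hC U hU1) hU2
    have hfin : (⋃ n ∈ Iic k, {z | E z (F n)}).Finite :=
      (finite_Iic k).biUnion fun n _ => S.fin_ext (hF3 n)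
    choose! V hV1 hV2 using hcov
    obtain ⟨D, hD⟩ := zf_ex_fin S.zf (s := insert U (V '' ⋃ n ∈ Iic k, {z | E z (F n)}))
      ((hfin.image V).insert U)
    refine ⟨D, fun W hW => ?_, zf_fin_of S.zf ?_, fun z hz => ?_⟩
    · rcases (hD W).1 hW with rfl | ⟨z, hz, rfl⟩
      · exact hU1
      · obtain ⟨n, -, hn⟩ := mem_iUnion₂.1 hz
        exact hV1 z ((hKm z).2 (Or.inr ⟨n, hn⟩))
    · exact ((hfin.image V).insert U).subset fun W hW => (hD W).1 hW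
    · rcases (hKm z).1 hz with rfl | ⟨n, hn⟩
      · exact ⟨U, (hD U).2 (mem_insert _ _), hU2⟩
      · rcases lt_or_ge k n with h | h
        · exact ⟨U, (hD U).2 (mem_insert _ _), hk n h z hn⟩
        · exact ⟨V z, (hD _).2 (mem_insert_of_mem _ ⟨z, mem_iUnion₂.2 ⟨n, h, hn⟩, rfl⟩), hV2 z hz⟩
  obtain ⟨C, hC⟩ := S.zf.sepD' (P := fun z => E z K) (Df.mem' (Tm.var _) (Tm.const _)) A
  have hcl := hK K C (fun z hz => ((hKK z).1 hz).1) hcomp hC
  obtain ⟨U, h1, h2, h3⟩ := hcl.2 x ((hKm x).2 (Or.inl rfl)) fun h => hxA ((hC x).1 h).1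
  obtain ⟨k, hk⟩ := hnb U h1 h2
  obtain ⟨z, hz⟩ := hF2 (k + 1)
  exact h3 z (hk _ (Nat.lt_succ_self _) z hz) ((hC z).2 ⟨(hFA _ z hz).1, (hKm z).2 (Or.inr ⟨_, hz⟩)⟩)

end Mod

end Pool.Agent.H54.ZK
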