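import Mathlib

set_option autoImplicit false

/-! A tower of branches of length `ω₁` in trees of finite sequences. -/

namespace Pool.Agent.H54.ZK

open Set Filter Cardinal

/-- a well ordered type of order type `ω₁` -/
abbrev W : Type := (ℵ₁ : Cardinal.{0}).ord.ToType

theorem W_Iio (x : W) : (Iio x).Countable :=
  (countable_iff_lt_aleph_one _).2 (mk_Iio_toType_ord_lt x)

theorem W_Iic (x : W) : (Iic x).Countable := by
  have : Iic x = insert x (Iio x) := by ext y; simp [le_iff_eq_or_lt]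
  rw [this]; exact (W_Iio x).insert x

theorem W_mk : #W = ℵ₁ := mk_ord_toType _

theorem W_unc : ¬ (univ : Set W).Countable := by
  rw [countable_iff_lt_aleph_one, mk_univ, W_mk]; exact lt_irrefl _

theorem W_bdd {S : Set W} (h : S.Countable) : ∃ γ, ∀ x ∈ S, x < γ := by
  by_contra hc
  push Not at hc
  refine W_unc ((h.biUnion fun x _ => W_Iic x).mono fun γ _ => ?_)
  obtain ⟨x, h1, h2⟩ := hc γ
  exact mem_biUnion h1 h2

theorem W_avoid {S : Set W} (h : S.Countable) : ∃ γ, γ ∉ S :=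
  (W_bdd h).imp fun γ hγ h' => lt_irrefl _ (hγ γ h')

instance : Nonempty W := ⟨(W_avoid countable_empty).choose⟩

/-- sequences of nodes whose length stays well below the depth -/
def Tw : Type := {σ : ℕ → List W // ∀ k, ∀ᶠ m in atTop, (σ m).length + k ≤ m}

def Le (σ τ : Tw) : Prop := ∀ᶠ m in atTop, σ.1 m <:+ τ.1 m

theorem Le.trans {σ τ ρ : Tw} (h : Le σ τ) (h' : Le τ ρ) : Le σ ρ := by
  filter_upwards [h, h'] with m a b using a.trans b

theorem Le.refl (σ : Tw) : Le σ σ := Eventually.of_forall fun _ => List.suffix_rfl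

theorem diag (s : ℕ → Tw) (h : ∀ i j, i ≤ j → Le (s i) (s j)) : ∃ τ, ∀ n, Le (s n) τ := by
  classical
  let P : ℕ → ℕ → Prop := fun m k => (∀ j ≤ k, (s j).1 m <:+ (s k).1 m) ∧ ((s k).1 m).length + k ≤ m
  have hP : ∀ k, ∀ᶠ m in atTop, P m k := by
    intro k
    filter_upwards [(s k).2 k, (eventually_all_finite (finite_Iic k)).2 fun j hj => h j k hj] with m a b
    exact ⟨b, a⟩
  let f : ℕ → ℕ := fun m => Nat.findGreatest (P m) m
  have hf : ∀ k, ∀ᶠ m in atTop, k ≤ f m ∧ P m (f m) := by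
    intro k
    filter_upwards [hP k, eventually_ge_atTop k] with m a b
    exact ⟨Nat.le_findGreatest b a, Nat.findGreatest_spec b a⟩
  refine ⟨⟨fun m => (s (f m)).1 m, fun k => ?_⟩, fun n => ?_⟩
  · filter_upwards [hf k] with m a
    exact le_trans (by omega) a.2.2
  · filter_upwards [hf n] with m a
    exact a.2.1 n a.1

theorem bound {ι : Type} [LinearOrder ι] [Countable ι] (g : ι → Tw)
    (h : ∀ i j, i < j → Le (g i) (g j)) : ∃ τ, ∀ i, Le (g i) τ := by
  rcases isEmpty_or_nonempty ι with he | he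
  · exact ⟨⟨fun _ => [], fun k => by filter_upwards [eventually_ge_atTop k] with m a; simpa using a⟩,
      fun i => he.elim i⟩
  · obtain ⟨e, he⟩ := exists_surjective_nat ι
    have h' : ∀ i j, i ≤ j → Le (g i) (g j) := fun i j hij => by
      rcases hij.eq_or_lt with rfl | hij
      exacts [Le.refl _, h i j hij]
    obtain ⟨τ, hτ⟩ := diag (fun n => g (partialSups e n)) fun i j hij => h' _ _ ((partialSups e).mono hij)
    refine ⟨τ, fun i => ?_⟩
    obtain ⟨n, rfl⟩ := he i
    exact (h' _ _ (le_partialSups e n)).trans (hτ n)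

theorem step (β : W) (g : {γ // γ < β} → Tw) : ∃ τ : Tw, (∀ m, β ∈ τ.1 m) ∧
    ((∀ i j, i < j → Le (g i) (g j)) → ∀ i, Le (g i) τ) := by
  haveI : Countable {γ // γ < β} := (W_Iio β).to_subtype
  have key : ∃ τ, (∀ i j, i < j → Le (g i) (g j)) → ∀ i, Le (g i) τ := by
    by_cases h : ∀ i j, i < j → Le (g i) (g j)
    · obtain ⟨τ, hτ⟩ := bound g h
      exact ⟨τ, fun _ => hτ⟩
    · exact ⟨⟨fun _ => [], fun k => by filter_upwards [eventually_ge_atTop k] with m a; simpa using a⟩,
        fun h' => absurd h' h⟩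
  obtain ⟨τ, hτ⟩ := key
  refine ⟨⟨fun m => β :: τ.1 m, fun k => ?_⟩, fun m => List.mem_cons_self, fun h i => ?_⟩
  · filter_upwards [τ.2 (k + 1)] with m a
    simp only [List.length_cons]; omega
  · filter_upwards [hτ h i] with m a
    exact a.trans (List.suffix_cons _ _)

theorem tower : ∃ σ : W → Tw, (∀ β m, β ∈ (σ β).1 m) ∧ ∀ γ β, γ < β → Le (σ γ) (σ β) := by
  choose G hG1 hG2 using step
  have wf : WellFounded ((· < ·) : W → W → Prop) := wellFounded_lt
  let σ : W → Tw := wf.fix fun β ih => G β fun γ => ih γ.1 γ.2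
  have hσ : ∀ β, σ β = G β fun γ => σ γ.1 := fun β => wf.fix_eq _ _
  refine ⟨σ, fun β m => by rw [hσ]; exact hG1 _ _ m, fun γ β h => ?_⟩
  have key : ∀ β, ∀ γ, γ < β → Le (σ γ) (σ β) := by
    intro β
    induction β using wf.induction with
    | _ β ih =>
      intro γ hγ
      have := hG2 β (fun γ => σ γ.1) (fun i j hij => ih j.1 j.2 i.1 hij) ⟨γ, hγ⟩
      rwa [← hσ] at this
  exact key β γ h

noncomputable def sg (γ : W) (m : ℕ) : List W := (tower.choose γ).1 m

theorem sg_mem (γ : W) (m : ℕ) : γ ∈ sg γ m := tower.choose_spec.1 γ m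

theorem sg_len (γ : W) : ∀ᶠ m in atTop, (sg γ m).length < m := by
  filter_upwards [(tower.choose γ).2 1] with m a
  exact Nat.lt_of_succ_le a

theorem sg_le {γ β : W} (h : γ ≤ β) : ∀ᶠ m in atTop, sg γ m <:+ sg β m := by
  rcases h.eq_or_lt with rfl | h
  · exact Le.refl _
  · exact tower.choose_spec.2 γ β h

/-- comparing suffixes: a node whose parent avoids `γ` -/
theorem suf_iff {γ s : W} {v σ τ : List W} (h : σ <:+ τ) (hγ : γ ∈ σ) (hv : γ ∉ v) :
    (s :: v) <:+ τ ↔ (s :: v) <:+ σ := by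
  refine ⟨fun h' => ?_, fun h' => h'.trans h⟩
  rcases List.suffix_or_suffix_of_suffix h' h with h1 | h1
  · exact h1
  · rcases List.suffix_cons_iff.1 h1 with h2 | h2
    · exact h2 ▸ List.suffix_rfl
    · exact absurd (h2.subset hγ) hv

end Pool.Agent.H54.ZK
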